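import Pool.Agent.Lib.DM.C.Fr6
import Pool.Agent.Lib.DI.F.VPB

/-!
# Part C for DM (inert case): `S_C1`, `S_C2`, `S_C3`, `S_C4`, `S_C6`, `S_C7` (author helper33)
-/

set_option autoImplicit false

open scoped Pointwise Topology nonZeroDivisors
open Filter

noncomputable section

namespace Pool.Agent.DM

open Pool.Agent.MuZ Pool.Agent.FW NumberField IsDedekindDomain
open Pool.Agent.DI (io ofC io_inj exists_io io_ofC ofC_io VP MP UP TP ex)
open Pool.Agent.DN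

variable {n t : ℕ}

/-! ## The conditions -/

theorem Fok.four {f : ℕ} (h : Fok f) : 4 ∣ 3 * f :=
  Dvd.dvd.mul_left (dvd_trans (by norm_num) h.dvd) 3

theorem FM.g {f : ℕ} {m : Ideal (OO n t)} (h : FM f m) : DS.FMg (3 * f) m := by
  have h1 := h.pos
  refine ⟨by omega, Dvd.dvd.mul_left (dvd_trans (by norm_num) h.dvd) 3, ?_, h.ne, h.prm⟩
  obtain ⟨u, hu⟩ := h.dvd
  exact ⟨4 * u, by rw [hu]; ring⟩

theorem FB.g {f : ℕ} {b : Ideal (OO n t)} (h : FB f b) : DS.FBg (3 * f) b := ⟨h.ne, h.prm⟩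

theorem levg_three (f : ℕ) (m : Ideal (OO n t)) (R : Finset (Ideal (OO n t))) :
    DS.levg (3 * f) m R = 9 * lev f m R := by
  unfold DS.levg lev
  ring

theorem IsLv.g {f M : ℕ} {m : Ideal (OO n t)} {R : Finset (Ideal (OO n t))} (h : IsLv f m R M) :
    DS.IsLg (3 * f) m R (9 * M) := by
  have h1 := h.pos
  refine ⟨by omega, ?_⟩
  rw [levg_three]
  exact mul_dvd_mul_left 9 h.dvd

theorem IsLv.nm {f M : ℕ} {m : Ideal (OO n t)} {R : Finset (Ideal (OO n t))} (h : IsLv f m R M) :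
    NI m ∣ M := by
  refine dvd_trans ?_ h.dvd
  refine Dvd.dvd.mul_left ?_ _
  exact dvd_trans (dvd_mul_right _ _) (dvd_pow_self _ (by norm_num))

theorem IsLv.f2 {f M : ℕ} {m : Ideal (OO n t)} {R : Finset (Ideal (OO n t))} (h : IsLv f m R M) :
    f ∣ M := by
  refine dvd_trans ?_ h.dvd
  refine Dvd.dvd.mul_right ?_ _
  exact Dvd.dvd.mul_left (dvd_pow_self _ (by norm_num)) _

/-- `c r + d ≠ 0` if `M ∣ c`, `M > 1` and the denominator of `r` is prime to `M`. -/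
theorem den_ne {M : ℕ} (hM : 1 < M) {a b' c d : ℤ} (hG : a * d - b' * c = 1) (hc : (M : ℤ) ∣ c)
    {r : ℚ} (hr : r.den.Coprime M) : (c : ℚ) * r + d ≠ 0 := by
  intro h0
  have h1 : (c : ℤ) * r.num = -d * r.den := by
    have h2 : (r.den : ℚ) ≠ 0 := by exact_mod_cast r.den_nz
    have h3 : (c : ℚ) * (r.num / r.den) + d = 0 := by rwa [Rat.num_div_den]
    have h4 : (c : ℚ) * r.num = -d * r.den := by
      field_simp at h3
      linear_combination h3
    exact_mod_cast h4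
  have h2 : (M : ℤ) ∣ d * r.den := by
    have h3 : (M : ℤ) ∣ -d * r.den := by
      rw [← h1]
      exact Dvd.dvd.mul_right hc _
    rw [neg_mul] at h3
    exact (dvd_neg.1 h3)
  have h3 : (M : ℤ) ∣ d :=
    Int.dvd_of_dvd_mul_left_of_gcd_one h2 (by
      have : Int.gcd (M : ℤ) (r.den : ℤ) = 1 := by
        rw [Int.gcd_natCast_natCast]
        exact Nat.Coprime.symm hr
      exact this)
  have h4 : (M : ℤ) ∣ 1 := by
    rw [← hG]
    exact dvd_sub (Dvd.dvd.mul_left h3 _) (Dvd.dvd.mul_left hc _)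
  have h5 := Int.le_of_dvd one_pos h4
  omega

/-! ## The statements -/

theorem tC1 (hR : DS.S_R1) : S_C1 := by
  intro n t _ f M m b hm hb hM a b' c d hG
  obtain ⟨h1, h2, -, -, h5, h6⟩ := gC1 hR n t (3 * f) (9 * M) m b hm.g hb.g hM.g a b' c d hG
  refine ⟨h1, h2, fun r hr => ?_⟩
  have hM1 : 1 < M := by
    have h7 := Nat.le_of_dvd hM.pos hM.f2
    have h8 := Nat.le_of_dvd hm.pos hm.dvd
    omega
  have hc : (M : ℤ) ∣ c := by
    have h9 := hG.2
    exact dvd_trans (Dvd.intro_left 9 rfl) h9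
  have h7 := den_ne hM1 hG.1 hc hr
  exact ⟨h7, (h6 r (Nat.Coprime.coprime_dvd_right hM.nm hr) h7).2⟩

theorem tC2 (hR : DS.S_R1) : S_C2 := by
  intro n t _ f M m b hm hb hM a b' c d hG hd z hz
  refine gC2 hR n t (3 * f) (9 * M) m b hm.g hb.g hM.g a b' c d hG ?_ z hz
  push_cast
  exact hd

theorem tC3 (hR : DS.S_R1) : S_C3 := by
  intro n t _ f M m b hm hb hM a b' c d hG
  exact gC3 hR n t (3 * f) (9 * M) m b hm.g hb.g hM.g a b' c d hG

theorem tC4 (hR : DS.S_R1) : S_C4 := by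
  intro n t _ f m b hm hb c q hq hqm
  have h := gC4 hR n t (3 * f) m b hm.g hb.g c q hq hqm
  push_cast at h ⊢
  exact h

theorem tC6 (hR : DS.S_R1) : S_C6 := by
  intro n t _ f m b hm hb
  obtain ⟨h1, h2, h3, h4, h5⟩ := gC6 hR n t (3 * f) hm.four m b hm.g hb.g
  refine ⟨fun b' hb' hr => h1 b' hb'.g hr, fun r => ⟨(h2 r).1, ?_⟩, h4, h5⟩
  have h6 := (h3 3 (by norm_num) (Or.inl (dvd_mul_right 3 f))).2 r
  have hNI := (DS.C.aCnd n t (3 * f) m b hm.g hb.g).2.2.2.2.1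
  rw [hNI] at h6
  push_cast at h6
  exact h6

theorem tC7 (hR : DS.S_R1) : S_C7 := by
  intro n t _ f m b hm hb
  obtain ⟨-, h2, h3, h4, h5, -⟩ := DS.aC7 n t (3 * f) m b hm.g hb.g
  obtain ⟨k1, k2⟩ := gC7 hR n t (3 * f) m b hm.g hb.g
  have hNI := (DS.C.aCnd n t (3 * f) m b hm.g hb.g).2.2.2.2.1
  refine ⟨k1, h2, fun j hj => ?_, h4, fun j => ⟨(h5 j).1, fun P hP => ?_⟩, k2⟩
  · refine h3 j 3 (Or.inl (dvd_mul_right 3 f)) fun h => hj ?_
    rw [hNI] at h
    push_cast at h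
    omega
  · have hP1 : P.IsPrime := hP.1.1
    have hf : VP P ((f : ℕ) : Om) := DI.F.vp_natCast hP1 f
    have h3P : MP P ((3 * f : ℕ) : Om) := by
      push_cast
      exact DI.F.mp_mul_vp hP1 hP.2 hf
    obtain ⟨y, hy, he⟩ := (h5 j).2 P hP.1 h3P
    refine ⟨f * y, DI.F.vp_mul hP1 hf hy, ?_⟩
    rw [he]
    push_cast
    ring

end Pool.Agent.DM
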