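import Pool.Agent.Lib.DM.C.Spec9
import Pool.Agent.Lib.DM.CV.Bas

/-!
# Part C for DM (inert case): assembly of `S_C9`
-/

set_option autoImplicit false

open scoped Pointwise Topology nonZeroDivisors
open Filter

noncomputable section

namespace Pool.Agent.DM.C

open Pool.Agent.MuZ Pool.Agent.FW NumberField IsDedekindDomain Pool.Agent.DM
open Pool.Agent.DI (io ofC io_inj exists_io io_ofC ofC_io VP MP UP TP ex)
open Pool.Agent.DN
open Pool.Agent.DN.C (rsum PerO)
open Pool.Agent.DS.C (ftp Ts Hs Pf h0 T0)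

variable {n t : ℕ}

private theorem C9_ex_int (z : ℂ) (j : ℤ) : ex (z + j) = ex z := by
  unfold DI.ex
  have e : 2 * Real.pi * Complex.I * (z + j) = 2 * Real.pi * Complex.I * z + j * (2 * Real.pi * Complex.I) := by
    ring
  rw [e, Complex.exp_periodic.int_mul j]

private theorem C9_per_Q (e : ℤ) : PerO 3 (QX (n := n) (t := t) e) := by
  intro v u
  unfold QX
  have h1 : ((3 : ℕ) : OO n t) ∣ (v + ((3 : ℕ) : OO n t) * u) - v := ⟨u, by ring⟩
  obtain ⟨j, hj⟩ := Nm_congr h1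
  have h2 : Nm (v + ((3 : ℕ) : OO n t) * u) = Nm v + 3 * j := by
    push_cast at hj ⊢
    linarith
  rw [h2]
  have e2 : (e : ℂ) * ((Nm v + 3 * j : ℤ) : ℂ) / 3 = e * Nm v / 3 + ((e * j : ℤ) : ℂ) := by
    push_cast
    ring
  rw [e2, C9_ex_int]

private theorem C9_per_pow {X : OO n t → ℂ} (h : PerO 3 X) (k : ℕ) : PerO 3 (fun v => X v ^ k) := by
  intro v u
  change X _ ^ k = _
  rw [h v u]

private theorem C9_per_mul {X Y : OO n t → ℂ} (h : PerO 3 X) (h' : PerO 3 Y) :
    PerO 3 (fun v => X v * Y v) := by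
  intro v u
  change X _ * Y _ = _
  rw [h v u, h' v u]

private theorem C9_per_lin {X Y : OO n t → ℂ} (h : PerO 3 X) (h' : PerO 3 Y) (a b : ℂ) :
    PerO 3 (fun v => a * X v + b * Y v) := by
  intro v u
  change a * X _ + b * Y _ = _
  rw [h v u, h' v u]

private theorem C9_VX_lin (f : ℕ) (m b : Ideal (OO n t)) (g g' : OO n t → ℂ) (a c : ℂ) (x : ℚ) :
    VX f m b (fun v => a * g v + c * g' v) x = a * VX f m b g x + c * VX f m b g' x := by
  unfold VX
  rw [Finset.mul_sum, Finset.mul_sum, ← Finset.sum_add_distrib]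
  refine Finset.sum_congr rfl fun α _ => ?_
  ring

/-- `1 + ζ + ζ² = 0` for the powers of `zet 3` with exponent prime to `3`. -/
private theorem C9_zeta {N : ℕ} (hN : ¬ 3 ∣ N) : 1 + zet 3 ^ N + (zet 3 ^ N) ^ 2 = 0 := by
  have h3 : (0 : ℕ) < 3 := by norm_num
  have hp : IsPrimitiveRoot (io (zet 3)) 3 := by
    rw [CV_io_zet h3]
    have h := Complex.isPrimitiveRoot_exp 3 (by norm_num)
    unfold DI.ex
    have e : 2 * Real.pi * Complex.I * (1 / ((3 : ℕ) : ℂ)) = 2 * Real.pi * Complex.I / ((3 : ℕ) : ℂ) := by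
      ring
    rw [e]
    exact h
  have hp' : IsPrimitiveRoot (zet 3) 3 := (IsPrimitiveRoot.map_iff_of_injective io_inj).1 hp
  have hcop : Nat.Coprime N 3 := by
    refine Nat.Coprime.symm ((Nat.Prime.coprime_iff_not_dvd Nat.prime_three).2 hN)
  have hN' : IsPrimitiveRoot (zet 3 ^ N) 3 := hp'.pow_of_coprime N hcop
  have h := hN'.geom_sum_eq_zero (by norm_num)
  rw [Finset.sum_range_succ, Finset.sum_range_succ, Finset.sum_range_one, pow_zero, pow_one] at h
  exact h

theorem tC9 (hR : DS.S_R1) (hP : S_Rep) (hV : S_Vsy) (hL : S_Lcx) (hZ : S_Ztx) (_hX : S_Chx)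
    (hT : S_Tm) : S_C9 := by
  intro n t _ f M m b hm hb hM P hPP r hr
  obtain ⟨h20, -, -, -, -, hmc, hm0, hm3, -⟩ := w_fm hm
  obtain ⟨-, -, -, -, -, hmb⟩ := w_fb hm hb
  have hM2 : 2 ≤ M := by
    have h7 := Nat.le_of_dvd hM.pos hM.f2
    omega
  have hG : G0 (M : ℤ) 1 0 M 1 := ⟨by ring, dvd_refl _⟩
  obtain ⟨-, -, hne, hden⟩ := CV_mob hM2 hG hr
  have hne' : (M : ℚ) * r + 1 ≠ 0 := by
    push_cast at hne
    exact hne
  have hden' : (r / (M * r + 1) : ℚ).den.Coprime M := by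
    push_cast at hden
    rw [one_mul, add_zero] at hden
    exact hden
  have h0c : (0 : ℚ).den.Coprime M := by simp
  set N : ℕ := NI (m * b) with hNd
  have hN3f : N.Coprime (3 * f) := (CV_NI_cop (by omega)).1 hmb
  have hN3 : N.Coprime 3 := Nat.Coprime.coprime_dvd_right (Dvd.intro _ rfl) hN3f
  have hN3' : ¬ 3 ∣ N := by
    intro h
    have h1 := Nat.Coprime.eq_one_of_dvd hN3.symm h
    omega
  have hfr : fr b ≠ 0 := (fra hR hm.g hb.g).2.1
  -- the constant `c`
  obtain ⟨c, hc⟩ : ∃ c : ℕ, Dk n t * f ^ 2 * N * c = M := by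
    obtain ⟨c', hc'⟩ := hM.dvd
    unfold lev at hc'
    rw [Finset.prod_singleton, ← CV_NI_mul] at hc'
    exact ⟨N ^ 2 * c', by rw [hc', ← hNd]; ring⟩
  have hc3 : c % 3 = N % 3 := by
    have h1 : (Dk n t * f ^ 2 * N * c) % 3 = 1 := by rw [hc]; exact hM.one
    have h2 : Dk n t % 3 = 1 := Ine3.one
    have h3 : f ^ 2 % 3 = 1 := by
      have h4 : f % 3 = 1 ∨ f % 3 = 2 := by
        have h5 : ¬ 3 ∣ f := by
          intro h
          have h6 := Nat.Coprime.eq_one_of_dvd hm.cop.symm h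
          omega
        omega
      rcases h4 with h4 | h4 <;> rw [Nat.pow_mod, h4]
    have h4 : (N * c) % 3 = 1 := by
      have e : Dk n t * f ^ 2 * N * c = (Dk n t * f ^ 2) * (N * c) := by ring
      rw [e, Nat.mul_mod, Nat.mul_mod (Dk n t), h2, h3] at h1
      omega
    have h5 : N % 3 = 1 ∨ N % 3 = 2 := by omega
    have h6 : c % 3 = 0 ∨ c % 3 = 1 ∨ c % 3 = 2 := by omega
    rw [Nat.mul_mod] at h4
    rcases h5 with h5 | h5 <;> rcases h6 with h6 | h6 | h6 <;> rw [h5, h6] at h4 <;> omega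
  refine ⟨hne', ?_, ?_, ?_⟩
  · -- the sum of the three translates
    intro k _
    unfold etE
    rw [← Finset.sum_add_distrib, ← Finset.sum_add_distrib]
    refine Finset.sum_eq_zero fun α hα => ?_
    have hαc := w_tm_cop hT hm.toFok hα
    have hfb : FB f (sp α * b) := w_fb_mul (w_fb_sp hm.pos hαc) hb
    have hN3α : ¬ 3 ∣ NI (m * (sp α * b)) := by
      intro h
      have h1 := (w_fb hm hfb).2.2.2.2.2
      have h2 : (NI (m * (sp α * b))).Coprime (3 * f) := (CV_NI_cop (by omega)).1 h1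
      have h3 := Nat.Coprime.eq_one_of_dvd (Nat.Coprime.coprime_dvd_right (Dvd.intro _ rfl) h2).symm h
      omega
    have hper := fun s : ℚ => etaM_per hR hm.g hfb.g (by norm_num : (0 : ℕ) < 3)
      (Or.inl (dvd_mul_right 3 f)) s
    have e1 : (r + 1) / 3 = r / 3 + 1 / ((3 : ℕ) : ℚ) := by push_cast; ring
    have e2 : (r + 2) / 3 = (r / 3 + 1 / ((3 : ℕ) : ℚ)) + 1 / ((3 : ℕ) : ℚ) := by push_cast; ring
    have t1 : etaM (3 * f) m (sp α * b) ((r + 1) / 3) =
        zet 3 ^ NI (m * (sp α * b)) * etaM (3 * f) m (sp α * b) (r / 3) := by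
      rw [e1]; exact hper _
    have t2 : etaM (3 * f) m (sp α * b) ((r + 2) / 3) =
        zet 3 ^ NI (m * (sp α * b)) * (zet 3 ^ NI (m * (sp α * b)) * etaM (3 * f) m (sp α * b) (r / 3)) := by
      rw [e2, hper, hper]
    rw [t1, t2]
    have h := C9_zeta hN3α
    linear_combination (zt P α ^ k * etaM (3 * f) m (sp α * b) (r / 3)) * h
  · -- `k = 1, 3`
    intro k hk
    have hX : IsX (fun v : OO n t => io (zt P v)) := hZ n t P hPP
    set X : OO n t → ℂ := fun v => io (zt P v) with hXd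
    have hk0 : k ≠ 0 := by rcases hk with rfl | rfl <;> norm_num
    obtain ⟨hl, -⟩ := hL n t X hX f c N hm.cop hc3 hN3'
    have hl := hl k hk
    have p1 : PerO 3 (fun v => X v ^ k) := C9_per_pow hX.per k
    have p2 : PerO 3 (fun v => X v ^ k * QX (N : ℤ) v) := C9_per_mul p1 (C9_per_Q _)
    have z1 : ∀ v : OO n t, ¬ Cop v 3 → X v ^ k = 0 := fun v hv => by
      rw [hX.zero v hv, zero_pow hk0]
    have z2 : ∀ v : OO n t, ¬ Cop v 3 → X v ^ k * QX (N : ℤ) v = 0 := fun v hv => by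
      rw [z1 v hv, zero_mul]
    have hkH : io (3 * kH n t P k) = SX X k ^ 2 / 3 := by
      unfold kH SX
      rw [map_mul, map_div₀, map_pow, map_sum, map_ofNat, map_ofNat]
      simp only [map_pow]
      rw [hXd]
      ring
    obtain ⟨a1, a2, -⟩ := hP n t f M m b hm hb hM P k r hr
    obtain ⟨b1, b2, -⟩ := hP n t f M m b hm hb hM P k (r / (M * r + 1)) hden'
    obtain ⟨c1, c2, -⟩ := hP n t f M m b hm hb hM P k 0 h0c
    rw [zero_div] at c1 c2
    rw [zero_add] at c2
    have i1 := hV n t f M c m b (fun v => X v ^ k)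
      (fun v => (-1 + SX X k ^ 2 / 3) / 2 * X v ^ k + SX X k ^ 2 / 3 * (X v ^ k * QX (N : ℤ) v))
      hm hb hc p1 (C9_per_lin p1 p2 _ _) z1 (fun v hv => by
        change (-1 + SX X k ^ 2 / 3) / 2 * X v ^ k + SX X k ^ 2 / 3 * (X v ^ k * QX (N : ℤ) v) = 0
        rw [z1 v hv]; ring) (fun u => (hl u).1) r hne'
    have i2 := hV n t f M c m b (fun v => X v ^ k * QX (N : ℤ) v)
      (fun v => (-3 / (4 * (SX X k ^ 2 / 3)) - SX X k ^ 2 / 3 / 4) * X v ^ k +
        (-1 / 2 - SX X k ^ 2 / 3 / 2) * (X v ^ k * QX (N : ℤ) v))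
      hm hb hc p2 (C9_per_lin p1 p2 _ _) z2 (fun v hv => by
        change (-3 / (4 * (SX X k ^ 2 / 3)) - SX X k ^ 2 / 3 / 4) * X v ^ k +
          (-1 / 2 - SX X k ^ 2 / 3 / 2) * (X v ^ k * QX (N : ℤ) v) = 0
        rw [z1 v hv]; ring) (fun u => (hl u).2) r hne'
    rw [C9_VX_lin, C9_VX_lin, ← hkH] at i1 i2
    change io (etE P f k m b r) * fr b = VX f m b (fun v => X v ^ k) (r / 3) at a1
    change io (etE P f k m b (r + 1)) * fr b = VX f m b (fun v => X v ^ k * QX (N : ℤ) v) (r / 3) at a2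
    change io (etE P f k m b (r / (M * r + 1))) * fr b = VX f m b (fun v => X v ^ k) (r / (M * r + 1) / 3) at b1
    change io (etE P f k m b (r / (M * r + 1) + 1)) * fr b =
      VX f m b (fun v => X v ^ k * QX (N : ℤ) v) (r / (M * r + 1) / 3) at b2
    change io (etE P f k m b 0) * fr b = VX f m b (fun v => X v ^ k) 0 at c1
    change io (etE P f k m b 1) * fr b = VX f m b (fun v => X v ^ k * QX (N : ℤ) v) 0 at c2
    rw [← a1, ← a2, ← b1, ← c1, ← c2] at i1
    rw [← a1, ← a2, ← b2, ← c1, ← c2] at i2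
    have e3 : io (3 * kH n t P k) = 3 * io (kH n t P k) := by rw [map_mul, map_ofNat]
    constructor
    · apply io_inj
      rw [e3] at i1
      simp only [map_sub, map_add, map_mul, map_div₀, map_neg, map_one, map_ofNat]
      apply mul_right_cancel₀ hfr
      linear_combination i1
    · apply io_inj
      have e4 : -3 / (4 * (3 * io (kH n t P k))) = -1 / (4 * io (kH n t P k)) := by
        rw [show (4 : ℂ) * (3 * io (kH n t P k)) = 3 * (4 * io (kH n t P k)) by ring,
          show (-3 : ℂ) = 3 * (-1) by norm_num, mul_div_mul_left _ _ (by norm_num : (3 : ℂ) ≠ 0)]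
      rw [e3, e4] at i2
      simp only [map_sub, map_add, map_mul, map_div₀, map_neg, map_one, map_ofNat]
      apply mul_right_cancel₀ hfr
      linear_combination i2
  · -- `k = 2`
    have hX : IsX (fun v : OO n t => io (zt P v)) := hZ n t P hPP
    set X : OO n t → ℂ := fun v => io (zt P v) with hXd
    obtain ⟨-, hl⟩ := hL n t X hX f c N hm.cop hc3 hN3'
    have p1 : PerO 3 (fun v => X v ^ 2) := C9_per_pow hX.per 2
    have p2 : PerO 3 (fun v => X v ^ 2 * QX (N : ℤ) v) := C9_per_mul p1 (C9_per_Q _)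
    have p3 : PerO 3 (fun v => X v ^ 2 * QX (-(N : ℤ)) v) := C9_per_mul p1 (C9_per_Q _)
    have z1 : ∀ v : OO n t, ¬ Cop v 3 → X v ^ 2 = 0 := fun v hv => by
      rw [hX.zero v hv, zero_pow (by norm_num)]
    have z2 : ∀ (e : ℤ) (v : OO n t), ¬ Cop v 3 → X v ^ 2 * QX e v = 0 := fun e v hv => by
      rw [z1 v hv, zero_mul]
    obtain ⟨a1, -, a3⟩ := hP n t f M m b hm hb hM P 2 r hr
    obtain ⟨b1, b2, -⟩ := hP n t f M m b hm hb hM P 2 (r / (M * r + 1)) hden'
    obtain ⟨c1, c2, c3⟩ := hP n t f M m b hm hb hM P 2 0 h0c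
    rw [zero_div] at c1 c2 c3
    rw [zero_add] at c2
    rw [zero_sub] at c3
    have i1 := hV n t f M c m b (fun v => X v ^ 2) (fun v => X v ^ 2 * QX (-(N : ℤ)) v)
      hm hb hc p1 p3 z1 (z2 _) (fun u => (hl u).1) r hne'
    have i2 := hV n t f M c m b (fun v => X v ^ 2 * QX (N : ℤ) v) (fun v => X v ^ 2)
      hm hb hc p2 p1 (z2 _) z1 (fun u => (hl u).2) r hne'
    change io (etE P f 2 m b r) * fr b = VX f m b (fun v => X v ^ 2) (r / 3) at a1
    change io (etE P f 2 m b (r - 1)) * fr b = VX f m b (fun v => X v ^ 2 * QX (-(N : ℤ)) v) (r / 3) at a3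
    change io (etE P f 2 m b (r / (M * r + 1))) * fr b = VX f m b (fun v => X v ^ 2) (r / (M * r + 1) / 3) at b1
    change io (etE P f 2 m b (r / (M * r + 1) + 1)) * fr b =
      VX f m b (fun v => X v ^ 2 * QX (N : ℤ) v) (r / (M * r + 1) / 3) at b2
    change io (etE P f 2 m b 0) * fr b = VX f m b (fun v => X v ^ 2) 0 at c1
    change io (etE P f 2 m b 1) * fr b = VX f m b (fun v => X v ^ 2 * QX (N : ℤ) v) 0 at c2
    change io (etE P f 2 m b (-1)) * fr b = VX f m b (fun v => X v ^ 2 * QX (-(N : ℤ)) v) 0 at c3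
    rw [← a3, ← b1, ← c1, ← c3] at i1
    rw [← a1, ← b2, ← c1, ← c2] at i2
    constructor
    · apply io_inj
      rw [map_sub, map_sub]
      apply mul_right_cancel₀ hfr
      linear_combination i1
    · apply io_inj
      rw [map_sub, map_sub]
      apply mul_right_cancel₀ hfr
      linear_combination i2

end Pool.Agent.DM.C
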