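import Pool.Agent.Lib.DM.C.Spec9

/-!
# Part C for DM: the sums `S_k` (`S_Chx`)
-/

set_option autoImplicit false

open scoped Pointwise Topology nonZeroDivisors
open Filter

noncomputable section

namespace Pool.Agent.DM.C

open Pool.Agent.MuZ Pool.Agent.FW NumberField IsDedekindDomain Pool.Agent.DM
open Pool.Agent.DI (io ofC io_inj exists_io io_ofC ofC_io VP MP UP TP ex)
open Pool.Agent.DN
open Pool.Agent.DN.C (rsum PerO)
open Pool.Agent.DS.C (ftp Ts Hs Pf h0 T0)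

private theorem Chx_alg (A B C : ℂ) (h1 : A ^ 2 = -1) (h2 : B * C = 1) (h3 : B ^ 2 + C ^ 2 = 0)
    (h4 : B ^ 4 = -1) (h5 : C ^ 4 = -1) :
    (A ^ 1 + B ^ 1 + C ^ 1) * (A ^ 5 + B ^ 5 + C ^ 5) = -3 ∧
    (A ^ 3 + B ^ 3 + C ^ 3) * (A ^ 7 + B ^ 7 + C ^ 7) = -3 ∧
    A ^ 2 + B ^ 2 + C ^ 2 = -1 ∧ A ^ 6 + B ^ 6 + C ^ 6 = -1 ∧
    ((A ^ 1 + B ^ 1 + C ^ 1) ^ 2 - 1) ^ 2 = -8 ∧ ((A ^ 3 + B ^ 3 + C ^ 3) ^ 2 - 1) ^ 2 = -8 := by
  have a3 : A ^ 3 = -A := by linear_combination A * h1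
  have a4 : A ^ 4 = 1 := by linear_combination (A ^ 2 - 1) * h1
  have a5 : A ^ 5 = A := by linear_combination A * a4
  have a6 : A ^ 6 = -1 := by linear_combination A ^ 2 * a4 + h1
  have a7 : A ^ 7 = -A := by linear_combination A ^ 3 * a4 + a3
  have b5 : B ^ 5 = -B := by linear_combination B * h4
  have c5 : C ^ 5 = -C := by linear_combination C * h5
  have b7 : B ^ 7 = -B ^ 3 := by linear_combination B ^ 3 * h4
  have c7 : C ^ 7 = -C ^ 3 := by linear_combination C ^ 3 * h5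
  have bc6 : B ^ 6 + C ^ 6 = 0 := by linear_combination B ^ 2 * h4 + C ^ 2 * h5 - h3
  have s2 : (B + C) ^ 2 = 2 := by linear_combination h3 + 2 * h2
  have h23 : B ^ 3 * C ^ 3 = 1 := by
    have : B ^ 3 * C ^ 3 = (B * C) ^ 3 := by ring
    rw [this, h2, one_pow]
  have s6 : (B ^ 3 + C ^ 3) ^ 2 = 2 := by linear_combination bc6 + 2 * h23
  refine ⟨?_, ?_, ?_, ?_, ?_, ?_⟩
  · rw [a5, b5, c5]
    linear_combination h1 - s2
  · rw [a3, a7, b7, c7]
    linear_combination h1 - s6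
  · linear_combination h1 + h3
  · linear_combination a6 + bc6
  · have e : (A ^ 1 + B ^ 1 + C ^ 1) ^ 2 - 1 = 2 * A * (B + C) := by linear_combination h1 + s2
    rw [e]
    linear_combination 4 * (B + C) ^ 2 * h1 - 4 * s2
  · rw [a3]
    have e : (-A + B ^ 3 + C ^ 3) ^ 2 - 1 = -2 * A * (B ^ 3 + C ^ 3) := by linear_combination h1 + s6
    rw [e]
    linear_combination 4 * (B ^ 3 + C ^ 3) ^ 2 * h1 - 4 * s6

theorem tChx (hF : S_Frb) : S_Chx := by
  intro n t _ X hX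
  obtain ⟨F1, -, F3, ⟨a, b, c, G1, -, ha, hbc, hor⟩, -⟩ := hF n t
  have hcg : ∀ u v : OO n t, (3 : OO n t) ∣ u - v → X u = X v := by
    rintro u v ⟨w, hw⟩
    have h1 : u = v + ((3 : ℕ) : OO n t) * w := by
      have h2 : u = v + (u - v) := by ring
      rw [h2, hw]
      push_cast
      ring
    rw [h1]
    exact hX.per v w
  have hpw : ∀ (v : OO n t) (k : ℕ), X (v ^ k) = X v ^ k := by
    intro v k
    induction k with
    | zero => rw [pow_zero, pow_zero, hX.one]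
    | succ k ih => rw [pow_succ, pow_succ, hX.mul, ih]
  have hng : ∀ v : OO n t, X (-v) = -X v := by
    intro v
    rw [← neg_one_mul, hX.mul, hX.neg, neg_one_mul]
  have hS : ∀ k : ℕ, SX X k = X a ^ k + X b ^ k + X c ^ k := fun k => G1 fun v => X v ^ k
  have hA : X a ^ 2 = -1 := by
    rw [← hpw, ← hX.neg]
    refine hcg _ _ ?_
    rwa [sub_neg_eq_add]
  have hBC : X b * X c = 1 := by
    rw [← hX.mul, hcg _ _ hbc, hX.one]
  have hB : X b ^ 2 + X c ^ 2 = 0 ∧ X b ^ 4 = -1 ∧ X c ^ 4 = -1 := by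
    rcases hor with ⟨h1, h2⟩ | ⟨h1, h2⟩
    · have e1 : X b ^ 2 = -X a := by
        rw [← hpw, ← hng]
        refine hcg _ _ ?_
        rwa [sub_neg_eq_add]
      have e2 : X c ^ 2 = X a := by
        rw [← hpw]
        exact hcg _ _ h2
      refine ⟨by rw [e1, e2]; ring, ?_, ?_⟩
      · linear_combination (X b ^ 2 - X a) * e1 + hA
      · linear_combination (X c ^ 2 + X a) * e2 + hA
    · have e1 : X b ^ 2 = X a := by
        rw [← hpw]
        exact hcg _ _ h1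
      have e2 : X c ^ 2 = -X a := by
        rw [← hpw, ← hng]
        refine hcg _ _ ?_
        rwa [sub_neg_eq_add]
      refine ⟨by rw [e1, e2]; ring, ?_, ?_⟩
      · linear_combination (X b ^ 2 + X a) * e1 + hA
      · linear_combination (X c ^ 2 - X a) * e2 + hA
  obtain ⟨r1, r2, r3, r4, r5, r6⟩ := Chx_alg (X a) (X b) (X c) hA hBC hB.1 hB.2.1 hB.2.2
  simp only [hS]
  refine ⟨r1, r2, r3, r4, ?_, ?_, ?_⟩
  · rintro k (rfl | rfl)
    · refine ⟨r5, fun h => ?_⟩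
      rw [h] at r5
      norm_num at r5
    · refine ⟨r6, fun h => ?_⟩
      rw [h] at r6
      norm_num at r6
  · intro v
    rw [← hpw]
    exact (hcg _ _ (F1 v)).symm
  · intro v hv
    rw [← hpw, hcg _ _ (F3 v hv).1, hX.one]

end Pool.Agent.DM.C
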