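import Pool.Agent.Lib.DM.C.Spec9

/-!
# Part C for DM (inert case), module Frb: Frobenius, norms and residues modulo `3`
-/

set_option autoImplicit false

open scoped Pointwise Topology nonZeroDivisors
open Filter

noncomputable section

namespace Pool.Agent.DM.C

open Pool.Agent.MuZ Pool.Agent.FW NumberField IsDedekindDomain Pool.Agent.DM
open Pool.Agent.DI (io ofC io_inj exists_io io_ofC ofC_io VP MP UP TP ex)
open Pool.Agent.DN
open Pool.Agent.DN.C (rsum PerO)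
open Pool.Agent.DS.C (ftp Ts Hs Pf h0 T0)

variable {n t : ℕ}

/-- the two cases -/
private theorem Frb_case (n t : ℕ) [h : Ine3 n t] :
    (t = 0 ∧ ∃ m : ℤ, (n : ℤ) = 3 * m + 1) ∨ (t = 1 ∧ ∃ m : ℤ, (n : ℤ) = 3 * m + 2) := by
  have h1 := h.one
  rcases (h.toSqN).out with ⟨h2, h3, -⟩ | ⟨h2, h3, -⟩
  · right
    subst h2
    unfold Dk at h1
    exact ⟨rfl, ((n : ℤ) - 2) / 3, by omega⟩
  · left
    subst h2
    unfold Dk at h1
    exact ⟨rfl, ((n : ℤ) - 1) / 3, by omega⟩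

private theorem Frb_cube (x : ℤ) : ∃ q : ℤ, x ^ 3 = x + 3 * q := by
  have h : x % 3 = 0 ∨ x % 3 = 1 ∨ x % 3 = 2 := by omega
  rcases h with h | h | h
  · obtain ⟨q, rfl⟩ : ∃ q, x = 3 * q := ⟨x / 3, by omega⟩
    exact ⟨9 * q ^ 3 - q, by ring⟩
  · obtain ⟨q, rfl⟩ : ∃ q, x = 3 * q + 1 := ⟨x / 3, by omega⟩
    exact ⟨9 * q ^ 3 + 9 * q ^ 2 + 2 * q, by ring⟩
  · obtain ⟨q, rfl⟩ : ∃ q, x = 3 * q + 2 := ⟨x / 3, by omega⟩
    exact ⟨9 * q ^ 3 + 18 * q ^ 2 + 11 * q + 2, by ring⟩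

private theorem Frb_dvd (v : OO n t) : (3 : OO n t) ∣ v ↔ (3 : ℤ) ∣ v.re ∧ (3 : ℤ) ∣ v.im := by
  have h := nat_dvd_iff 3 v
  push_cast at h
  exact h

private theorem Frb_one [Ine3 n t] (v : OO n t) : (3 : OO n t) ∣ v ^ 3 - cjO v := by
  rw [Frb_dvd, QuadraticAlgebra.re_sub, QuadraticAlgebra.im_sub, pow_succ, pow_two]
  simp only [re_mul, im_mul]
  obtain ⟨x, y⟩ := v
  simp only [cjO]
  obtain ⟨a, ha⟩ := Frb_cube x
  obtain ⟨b, hb⟩ := Frb_cube y
  rcases Frb_case n t with ⟨ht, m, hm⟩ | ⟨ht, m, hm⟩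
  · rw [hm, ht]
    push_cast
    constructor
    · refine ⟨a - (3 * m + 1) * x * y ^ 2, ?_⟩
      linear_combination ha
    · refine ⟨x ^ 2 * y - m * y ^ 3 - b, ?_⟩
      linear_combination -hb
  · rw [hm, ht]
    push_cast
    constructor
    · refine ⟨a - (3 * m + 2) * x * y ^ 2 - m * y ^ 3 - y ^ 3 + b, ?_⟩
      linear_combination ha + hb
    · refine ⟨x ^ 2 * y + x * y ^ 2 - m * y ^ 3 - b, ?_⟩
      linear_combination -hb

private theorem Frb_three [Ine3 n t] (v : OO n t) (h : (3 : ℤ) ∣ Nm v) : (3 : OO n t) ∣ v := by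
  rw [Frb_dvd]
  obtain ⟨x, y⟩ := v
  obtain ⟨c, hc⟩ := h
  simp only [Nm] at hc
  change (3 : ℤ) ∣ x ∧ (3 : ℤ) ∣ y
  rcases Frb_case n t with ⟨ht, m, hm⟩ | ⟨ht, m, hm⟩
  · rw [hm, ht] at hc
    push_cast at hc
    have hx : x % 3 = 0 ∨ x % 3 = 1 ∨ x % 3 = 2 := by omega
    have hy : y % 3 = 0 ∨ y % 3 = 1 ∨ y % 3 = 2 := by omega
    rcases hx with hx | hx | hx <;> rcases hy with hy | hy | hy
    · exact ⟨by omega, by omega⟩
    all_goals
      exfalso
      obtain ⟨a, ha⟩ : ∃ a, x = 3 * a + x % 3 := ⟨x / 3, by omega⟩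
      obtain ⟨b, hb⟩ : ∃ b, y = 3 * b + y % 3 := ⟨y / 3, by omega⟩
      rw [hx] at ha
      rw [hy] at hb
      rw [ha, hb] at hc
      ring_nf at hc
      omega
  · rw [hm, ht] at hc
    push_cast at hc
    have hx : x % 3 = 0 ∨ x % 3 = 1 ∨ x % 3 = 2 := by omega
    have hy : y % 3 = 0 ∨ y % 3 = 1 ∨ y % 3 = 2 := by omega
    rcases hx with hx | hx | hx <;> rcases hy with hy | hy | hy
    · exact ⟨by omega, by omega⟩
    all_goals
      exfalso
      obtain ⟨a, ha⟩ : ∃ a, x = 3 * a + x % 3 := ⟨x / 3, by omega⟩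
      obtain ⟨b, hb⟩ : ∃ b, y = 3 * b + y % 3 := ⟨y / 3, by omega⟩
      rw [hx] at ha
      rw [hy] at hb
      rw [ha, hb] at hc
      ring_nf at hc
      omega

private theorem Frb_cop [Ine3 n t] (v : OO n t) : Cop v 3 ↔ ¬ (3 : OO n t) ∣ v := by
  have hp : Prime (3 : ℤ) := Int.prime_three
  constructor
  · intro h h3
    obtain ⟨u, rfl⟩ := h3
    unfold Cop at h
    rw [Nm_mul] at h
    have e : Nm (3 : OO n t) = 3 * 3 := by
      have h4 := Nm_nat (n := n) (t := t) 3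
      push_cast at h4
      rw [h4]
      norm_num
    rw [e, mul_assoc] at h
    push_cast at h
    exact hp.not_isUnit ((IsCoprime.mul_left_iff.1 h).1.isUnit_of_dvd' dvd_rfl dvd_rfl)
  · intro h
    unfold Cop
    push_cast
    rw [isCoprime_comm]
    exact (hp.irreducible.coprime_iff_not_dvd).2 fun h3 => h (Frb_three v h3)

private theorem Frb_nm [Ine3 n t] {v : OO n t} (h : Cop v 3) : (3 : ℤ) ∣ Nm v - 1 ∨ (3 : ℤ) ∣ Nm v + 1 := by
  have h3 : ¬ (3 : ℤ) ∣ Nm v := fun h4 => (Frb_cop v).1 h (Frb_three v h4)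
  omega

private theorem Frb_eight [Ine3 n t] {v : OO n t} (h : Cop v 3) : (3 : OO n t) ∣ v ^ 8 - 1 := by
  have h1 : (3 : OO n t) ∣ v ^ 4 - (Nm v : OO n t) := by
    have e : v ^ 4 - (Nm v : OO n t) = v * (v ^ 3 - cjO v) := by
      rw [← mul_cjO]
      ring
    rw [e]
    exact (Frb_one v).mul_left _
  have h2 : (3 : OO n t) ∣ (Nm v : OO n t) ^ 2 - 1 := by
    rcases Frb_nm h with ⟨c, hc⟩ | ⟨c, hc⟩
    · have h3 : (Nm v : OO n t) - 1 = 3 * (c : OO n t) := by exact_mod_cast congrArg (fun z : ℤ => (z : OO n t)) hc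
      refine ⟨(c : OO n t) * ((Nm v : OO n t) + 1), ?_⟩
      linear_combination ((Nm v : OO n t) + 1) * h3
    · have h3 : (Nm v : OO n t) + 1 = 3 * (c : OO n t) := by exact_mod_cast congrArg (fun z : ℤ => (z : OO n t)) hc
      refine ⟨(c : OO n t) * ((Nm v : OO n t) - 1), ?_⟩
      linear_combination ((Nm v : OO n t) - 1) * h3
  have e : v ^ 8 - 1 = (v ^ 4 + (Nm v : OO n t)) * (v ^ 4 - (Nm v : OO n t)) + ((Nm v : OO n t) ^ 2 - 1) := by
    ring
  rw [e]
  exact dvd_add (h1.mul_left _) h2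

/-- multiplication by a unit permutes the residues -/
private theorem Frb_perm [Ine3 n t] (G : OO n t → ℂ) (a : OO n t) (hG : PerO 3 G) (ha : Cop a 3) :
    rsum 3 (fun v => G (a * v)) = rsum 3 G := by
  obtain ⟨g, hg⟩ := Pool.Agent.DN.C.Res_lift 3 G hG
  obtain ⟨b, -, hb⟩ := cop_inv ha
  obtain ⟨h1, h2⟩ := (nat_dvd_iff 3 _).1 hb
  rw [QuadraticAlgebra.re_sub, re_mul, re_one] at h1
  rw [QuadraticAlgebra.im_sub, im_mul, im_one] at h2
  have k1 : ((a.re : ZMod 3) * b.re - n * a.im * b.im) - 1 = 0 := by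
    have h3 := (ZMod.intCast_zmod_eq_zero_iff_dvd _ 3).2 h1
    push_cast at h3
    exact h3
  have k2 : ((a.re : ZMod 3) * b.im + a.im * b.re + t * a.im * b.im) - 0 = 0 := by
    have h3 := (ZMod.intCast_zmod_eq_zero_iff_dvd _ 3).2 h2
    push_cast at h3
    exact h3
  have e1 : rsum 3 (fun v : OO n t => G (a * v)) = ∑ x : ZMod 3, ∑ y : ZMod 3,
      g ((a.re : ZMod 3) * x - n * a.im * y) ((a.re : ZMod 3) * y + a.im * x + t * a.im * y) := by
    refine Pool.Agent.DN.C.Res_sum 3 (fun v : OO n t => G (a * v)) (fun x y =>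
      g ((a.re : ZMod 3) * x - n * a.im * y) ((a.re : ZMod 3) * y + a.im * x + t * a.im * y)) fun x y => ?_
    have h3 : a * (⟨x, y⟩ : OO n t) = ⟨a.re * x - n * a.im * y, a.re * y + a.im * x + t * a.im * y⟩ := by
      apply ext'
      · rw [re_mul]
      · rw [im_mul]
    change G (a * (⟨x, y⟩ : OO n t)) = _
    rw [h3, hg]
    push_cast
    rfl
  rw [e1, Pool.Agent.DN.C.Res_sum 3 G g hg, ← Fintype.sum_prod_type', ← Fintype.sum_prod_type']
  refine Finset.sum_nbij'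
    (fun p => ((a.re : ZMod 3) * p.1 - n * a.im * p.2, (a.re : ZMod 3) * p.2 + a.im * p.1 + t * a.im * p.2))
    (fun p => ((b.re : ZMod 3) * p.1 - n * b.im * p.2, (b.re : ZMod 3) * p.2 + b.im * p.1 + t * b.im * p.2))
    (fun _ _ => Finset.mem_univ _) (fun _ _ => Finset.mem_univ _) ?_ ?_ ?_
  · rintro ⟨x, y⟩ -
    refine Prod.ext ?_ ?_
    · linear_combination x * k1 - n * y * k2
    · linear_combination x * k2 + y * k1 + t * y * k2
  · rintro ⟨x, y⟩ -
    refine Prod.ext ?_ ?_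
    · linear_combination x * k1 - n * y * k2
    · linear_combination x * k2 + y * k1 + t * y * k2
  · rintro ⟨x, y⟩ -
    rfl

theorem tFrb : S_Frb := by
  intro n t _
  refine ⟨Frb_one, Frb_cop, fun v hv => ⟨Frb_eight hv, Frb_nm hv⟩, ?_, Frb_perm⟩
  rcases Frb_case n t with ⟨ht, m, hm⟩ | ⟨ht, m, hm⟩
  · refine ⟨⟨((0 : ℕ) : ℤ), 1⟩, ⟨((1 : ℕ) : ℤ), 1⟩, ⟨((2 : ℕ) : ℤ), 1⟩, fun G => ?_, fun G => ?_, ?_, ?_,
      Or.inl ⟨?_, ?_⟩⟩
    · rw [Finset.sum_range_succ, Finset.sum_range_succ, Finset.sum_range_one]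
    · rw [Finset.sum_range_succ, Finset.sum_range_succ, Finset.sum_range_one]
    · rw [Frb_dvd, QuadraticAlgebra.re_add, QuadraticAlgebra.im_add, pow_two, re_mul, im_mul, re_one, im_one]
      dsimp only
      rw [hm, ht]
      push_cast
      exact ⟨by omega, trivial⟩
    · rw [Frb_dvd, QuadraticAlgebra.re_sub, QuadraticAlgebra.im_sub, re_mul, im_mul, re_one, im_one]
      dsimp only
      rw [hm, ht]
      push_cast
      exact ⟨by omega, trivial⟩
    · rw [Frb_dvd, QuadraticAlgebra.re_add, QuadraticAlgebra.im_add, pow_two, re_mul, im_mul]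
      dsimp only
      rw [hm, ht]
      push_cast
      exact ⟨by omega, trivial⟩
    · rw [Frb_dvd, QuadraticAlgebra.re_sub, QuadraticAlgebra.im_sub, pow_two, re_mul, im_mul]
      dsimp only
      rw [hm, ht]
      push_cast
      exact ⟨by omega, trivial⟩
  · refine ⟨⟨((1 : ℕ) : ℤ), 1⟩, ⟨((0 : ℕ) : ℤ), 1⟩, ⟨((2 : ℕ) : ℤ), 1⟩, fun G => ?_, fun G => ?_, ?_, ?_,
      Or.inr ⟨?_, ?_⟩⟩
    · rw [Finset.sum_range_succ, Finset.sum_range_succ, Finset.sum_range_one]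
      ring
    · rw [Finset.sum_range_succ, Finset.sum_range_succ, Finset.sum_range_one]
      ring
    · rw [Frb_dvd, QuadraticAlgebra.re_add, QuadraticAlgebra.im_add, pow_two, re_mul, im_mul, re_one, im_one]
      dsimp only
      rw [hm, ht]
      push_cast
      exact ⟨by omega, trivial⟩
    · rw [Frb_dvd, QuadraticAlgebra.re_sub, QuadraticAlgebra.im_sub, re_mul, im_mul, re_one, im_one]
      dsimp only
      rw [hm, ht]
      push_cast
      exact ⟨by omega, trivial⟩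
    · rw [Frb_dvd, QuadraticAlgebra.re_sub, QuadraticAlgebra.im_sub, pow_two, re_mul, im_mul]
      dsimp only
      rw [hm, ht]
      push_cast
      exact ⟨by omega, trivial⟩
    · rw [Frb_dvd, QuadraticAlgebra.re_add, QuadraticAlgebra.im_add, pow_two, re_mul, im_mul]
      dsimp only
      rw [hm, ht]
      push_cast
      exact ⟨by omega, trivial⟩

end Pool.Agent.DM.C
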