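import Pool.Agent.Lib.DM.C.Spec9

/-!
# Part C for DM: the Fourier transforms of the powers of `X` (Gauss sums), module `DM/C/Gss`
-/

set_option autoImplicit false

open scoped Pointwise Topology nonZeroDivisors
open Filter

noncomputable section

namespace Pool.Agent.DM.C

open Pool.Agent.MuZ Pool.Agent.FW NumberField IsDedekindDomain Pool.Agent.DM
open Pool.Agent.DI (io ofC io_inj exists_io io_ofC ofC_io VP MP UP TP ex)
open Pool.Agent.DN
open Pool.Agent.DN.C (rsum PerO)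
open Pool.Agent.DS.C (ftp Ts Hs Pf h0 T0)

variable {n t : ℕ}

/-- `e(z + w) = e(z) e(w)`. -/
private theorem Gss_ex_add (z w : ℂ) : ex (z + w) = ex z * ex w := by
  simp only [ex, mul_add, Complex.exp_add]

private theorem Gss_ex_int (m : ℤ) : ex (m : ℂ) = 1 := by
  have h := Complex.exp_int_mul_two_pi_mul_I m
  unfold ex
  rw [← h]
  congr 1
  ring

private theorem Gss_ex_zero : ex 0 = 1 := by
  have h := Gss_ex_int 0
  simpa using h

/-- `e` of two numbers which differ by an integer. -/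
private theorem Gss_ex_congr {z w : ℂ} (m : ℤ) (h : z = w + m) : ex z = ex w := by
  rw [h, Gss_ex_add, Gss_ex_int, mul_one]

private theorem Gss_ex_23 : ex (-2 / 3) = ex (1 / 3) := by
  apply Gss_ex_congr (-1)
  push_cast
  norm_num

/-- `e(1/3) + e(-1/3) = -1`. -/
private theorem Gss_ex_sum : ex (-1 / 3) + ex (1 / 3) = -1 := by
  have h1 : ex (1 / 3) ^ 3 = 1 := by
    have h0 : ex (1 / 3 + 1 / 3 + 1 / 3) = 1 := by
      have h00 : ((1 : ℂ) / 3 + 1 / 3 + 1 / 3) = ((1 : ℤ) : ℂ) := by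
        push_cast
        norm_num
      rw [h00, Gss_ex_int]
    rw [Gss_ex_add, Gss_ex_add] at h0
    linear_combination h0
  have h2 : ex (-1 / 3) * ex (1 / 3) = 1 := by
    rw [← Gss_ex_add]
    have h0 : ((-1 : ℂ) / 3 + 1 / 3) = 0 := by norm_num
    rw [h0, Gss_ex_zero]
  have h3 : ex (1 / 3) ≠ 1 := by
    intro h
    unfold ex at h
    rw [Complex.exp_eq_one_iff] at h
    obtain ⟨m, hm⟩ := h
    have hpi : (2 * (Real.pi : ℂ) * Complex.I) ≠ 0 := by
      simp [Real.pi_ne_zero, Complex.I_ne_zero]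
    have h4 : (2 * (Real.pi : ℂ) * Complex.I) * (1 / 3) = (2 * (Real.pi : ℂ) * Complex.I) * m := by
      rw [hm]
      ring
    have h5 := mul_left_cancel₀ hpi h4
    have h6 : (1 : ℂ) = ((3 * m : ℤ) : ℂ) := by
      push_cast
      rw [← h5]
      norm_num
    have h7 : (1 : ℤ) = 3 * m := by exact_mod_cast h6
    omega
  have h4 : ex (-1 / 3) = ex (1 / 3) ^ 2 := by
    have h5 : ex (1 / 3) ≠ 0 := by
      intro h
      rw [h] at h1
      norm_num at h1
    apply mul_right_cancel₀ h5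
    rw [h2, ← pow_succ]
    exact h1.symm
  have h5 : (ex (1 / 3) - 1) * (ex (1 / 3) ^ 2 + ex (1 / 3) + 1) = 0 := by
    have : (ex (1 / 3) - 1) * (ex (1 / 3) ^ 2 + ex (1 / 3) + 1) = ex (1 / 3) ^ 3 - 1 := by ring
    rw [this, h1]
    ring
  rcases mul_eq_zero.1 h5 with h6 | h6
  · exact absurd (sub_eq_zero.1 h6) h3
  · rw [h4]
    linear_combination h6

/-- The values at the nine residues. -/
private theorem Gss_rsum (G : OO n t → ℂ) : rsum 3 G =
    (G ⟨0, 0⟩ + G ⟨0, 1⟩ + G ⟨0, 2⟩) + (G ⟨1, 0⟩ + G ⟨1, 1⟩ + G ⟨1, 2⟩) +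
      (G ⟨2, 0⟩ + G ⟨2, 1⟩ + G ⟨2, 2⟩) := by
  unfold rsum
  simp only [Finset.sum_range_succ, Finset.sum_range_zero, zero_add]
  norm_num

private theorem Gss_SX (X : OO n t → ℂ) (k : ℕ) :
    SX X k = X ⟨0, 1⟩ ^ k + X ⟨1, 1⟩ ^ k + X ⟨2, 1⟩ ^ k := by
  unfold SX
  simp only [Finset.sum_range_succ, Finset.sum_range_zero, zero_add]
  norm_num

private theorem Gss_neg {X : OO n t → ℂ} (hX : IsX X) (v u : OO n t) (w : OO n t)
    (h : v = -u + (3 : ℕ) * w) : X v = -X u := by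
  rw [h, hX.per]
  have : -u = u * (-1) := by ring
  rw [this, hX.mul, hX.neg]
  ring

private theorem Gss_X0 {X : OO n t → ℂ} (hX : IsX X) : X (⟨0, 0⟩ : OO n t) = 0 := by
  apply hX.zero
  intro h
  have h0 : Nm (⟨0, 0⟩ : OO n t) = 0 := by simp [Nm]
  unfold Cop at h
  rw [h0] at h
  have := isCoprime_zero_left.1 h
  rw [Int.isUnit_iff] at this
  omega

private theorem Gss_X1 {X : OO n t → ℂ} (hX : IsX X) : X (⟨1, 0⟩ : OO n t) = 1 := by
  have : (⟨1, 0⟩ : OO n t) = 1 := ext' (by rw [re_one]) (by rw [im_one])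
  rw [this, hX.one]

private theorem Gss_re3 (u w : OO n t) : (-u + (3 : ℕ) * w).re = -u.re + 3 * w.re := by
  rw [QuadraticAlgebra.re_add, QuadraticAlgebra.re_neg, re_mul, re_nat, im_nat]
  push_cast
  ring

private theorem Gss_im3 (u w : OO n t) : (-u + (3 : ℕ) * w).im = -u.im + 3 * w.im := by
  rw [QuadraticAlgebra.im_add, QuadraticAlgebra.im_neg, im_mul, re_nat, im_nat]
  push_cast
  ring

private theorem Gss_X2 {X : OO n t → ℂ} (hX : IsX X) : X (⟨2, 0⟩ : OO n t) = -1 := by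
  rw [Gss_neg hX (⟨2, 0⟩ : OO n t) 1 1 ?_, hX.one]
  apply ext'
  · rw [Gss_re3, re_one]
    norm_num
  · rw [Gss_im3, im_one]
    norm_num

private theorem Gss_X02 {X : OO n t → ℂ} (hX : IsX X) :
    X (⟨0, 2⟩ : OO n t) = -X (⟨0, 1⟩ : OO n t) := by
  apply Gss_neg hX _ _ (⟨0, 1⟩ : OO n t)
  apply ext'
  · rw [Gss_re3]
    norm_num
  · rw [Gss_im3]
    norm_num

private theorem Gss_X12 {X : OO n t → ℂ} (hX : IsX X) :
    X (⟨1, 2⟩ : OO n t) = -X (⟨2, 1⟩ : OO n t) := by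
  apply Gss_neg hX _ _ (⟨1, 1⟩ : OO n t)
  apply ext'
  · rw [Gss_re3]
    norm_num
  · rw [Gss_im3]
    norm_num

private theorem Gss_X22 {X : OO n t → ℂ} (hX : IsX X) :
    X (⟨2, 2⟩ : OO n t) = -X (⟨1, 1⟩ : OO n t) := by
  apply Gss_neg hX _ _ (⟨1, 1⟩ : OO n t)
  apply ext'
  · rw [Gss_re3]
    norm_num
  · rw [Gss_im3]
    norm_num

/-- The sum of `X^k φ(im)` over the residues. -/
private theorem Gss_main {X : OO n t → ℂ} (hX : IsX X) (k : ℕ) (hk : k ≠ 0) (φ : ℤ → ℂ) :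
    rsum 3 (fun v : OO n t => X v ^ k * φ v.im) =
      (1 + (-1) ^ k) * φ 0 + SX X k * φ 1 + (-1) ^ k * SX X k * φ 2 := by
  rw [Gss_rsum, Gss_SX]
  simp only [Gss_X0 hX, Gss_X1 hX, Gss_X2 hX, Gss_X02 hX, Gss_X12 hX, Gss_X22 hX]
  rw [neg_pow (X (⟨0, 1⟩ : OO n t)), neg_pow (X (⟨1, 1⟩ : OO n t)), neg_pow (X (⟨2, 1⟩ : OO n t)),
    zero_pow hk, one_pow]
  ring

private theorem Gss_Nm_cjO (v : OO n t) : Nm (cjO v) = Nm v := by
  unfold Nm cjO
  ring

private theorem Gss_Cop_pow {a : OO n t} (h : Cop a 3) (k : ℕ) : Cop (a ^ k) 3 := by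
  induction k with
  | zero =>
    rw [pow_zero]
    unfold Cop
    rw [Nm_one]
    exact isCoprime_one_left
  | succ k ih =>
    rw [pow_succ]
    unfold Cop at *
    rw [Nm_mul]
    exact IsCoprime.mul_left ih h

private theorem Gss_pow {X : OO n t → ℂ} (hX : IsX X) (v : OO n t) (k : ℕ) :
    X (v ^ k) = X v ^ k := by
  induction k with
  | zero => rw [pow_zero, pow_zero, hX.one]
  | succ k ih => rw [pow_succ, pow_succ, hX.mul, ih]

/-- The transform is a factor times the sum without the dilation. -/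
private theorem Gss_fac {X : OO n t → ℂ} (hX : IsX X) (F0 k : ℕ) (u : OO n t) :
    ftp 3 F0 (fun v => X v ^ k) u =
      X (F0 : OO n t) ^ k * rsum 3 (fun v : OO n t => X v ^ k * ex (-(v * cjO u).im / (3 : ℕ))) := by
  unfold ftp rsum
  rw [Finset.mul_sum]
  refine Finset.sum_congr rfl fun x _ => ?_
  rw [Finset.mul_sum]
  refine Finset.sum_congr rfl fun y _ => ?_
  simp only [hX.mul, mul_pow]
  ring

/-- The summand is periodic. -/
private theorem Gss_per {X : OO n t → ℂ} (hX : IsX X) (k : ℕ) (w : OO n t) :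
    PerO 3 (fun v : OO n t => X v ^ k * ex (-(v * w).im / (3 : ℕ))) := by
  intro v u
  simp only
  rw [hX.per]
  congr 1
  apply Gss_ex_congr (-(u * w).im)
  have h : ((v + (3 : ℕ) * u) * w).im = (v * w).im + 3 * (u * w).im := by
    have : (v + (3 : ℕ) * u) * w = v * w + ((3 : ℤ) : OO n t) * (u * w) := by
      push_cast
      ring
    rw [this, QuadraticAlgebra.im_add, im_mul (((3 : ℤ) : OO n t)), re_int, im_int]
    ring
  rw [h]
  push_cast
  ring

/-- `u` prime to `3`. -/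
private theorem Gss_unit [Ine3 n t] (hF : S_Frb) (hC : S_Chx) {X : OO n t → ℂ} (hX : IsX X)
    (k : ℕ) (u : OO n t) (hu : Cop u 3) :
    rsum 3 (fun v : OO n t => X v ^ k * ex (-(v * cjO u).im / (3 : ℕ))) =
      X u ^ (5 * k) * rsum 3 (fun v : OO n t => X v ^ k * ex (-(v.im : ℂ) / 3)) := by
  obtain ⟨-, -, h8, -, hper⟩ := hF n t
  obtain ⟨-, -, -, -, -, hcj, hX8⟩ := hC n t X hX
  have hcu : Cop (cjO u) 3 := by
    unfold Cop at *
    rw [Gss_Nm_cjO]
    exact hu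
  rw [← hper _ (cjO u ^ 7) (Gss_per hX k (cjO u)) (Gss_Cop_pow hcu 7)]
  unfold rsum
  rw [Finset.mul_sum]
  refine Finset.sum_congr rfl fun x _ => ?_
  rw [Finset.mul_sum]
  refine Finset.sum_congr rfl fun y _ => ?_
  obtain ⟨w, hw⟩ := (h8 (cjO u) hcu).1
  have h1 : X (cjO u ^ 7 * (⟨x, y⟩ : OO n t)) ^ k = X u ^ (5 * k) * X (⟨x, y⟩ : OO n t) ^ k := by
    rw [hX.mul, Gss_pow hX, hcj, mul_pow]
    congr 1
    rw [← pow_mul, ← pow_mul]
    have : 3 * (7 * k) = 5 * k + 8 * (2 * k) := by ring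
    rw [this, pow_add, pow_mul (X u) 8, hX8 u hu, one_pow, mul_one]
  have h2 : ex (-((cjO u ^ 7 * (⟨x, y⟩ : OO n t)) * cjO u).im / (3 : ℕ)) =
      ex (-(((⟨x, y⟩ : OO n t).im : ℤ) : ℂ) / 3) := by
    apply Gss_ex_congr (-(w * (⟨x, y⟩ : OO n t)).im)
    have h : (cjO u ^ 7 * (⟨x, y⟩ : OO n t)) * cjO u =
        (⟨x, y⟩ : OO n t) + ((3 : ℤ) : OO n t) * (w * (⟨x, y⟩ : OO n t)) := by
      have h3 : cjO u ^ 8 = 1 + 3 * w := by rw [← hw]; ring
      calc (cjO u ^ 7 * (⟨x, y⟩ : OO n t)) * cjO u = cjO u ^ 8 * (⟨x, y⟩ : OO n t) := by ring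
        _ = _ := by
          rw [h3]
          push_cast
          ring
    rw [h, QuadraticAlgebra.im_add, im_mul (((3 : ℤ) : OO n t)), re_int, im_int]
    push_cast
    ring
  simp only
  rw [h1, h2]
  ring

/-- `3 ∣ u`. -/
private theorem Gss_div {X : OO n t → ℂ} (k : ℕ) (u : OO n t) (hu : (3 : OO n t) ∣ u) :
    rsum 3 (fun v : OO n t => X v ^ k * ex (-(v * cjO u).im / (3 : ℕ))) =
      rsum 3 (fun v : OO n t => X v ^ k * (fun _ : ℤ => (1 : ℂ)) v.im) := by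
  obtain ⟨w, rfl⟩ := hu
  unfold rsum
  refine Finset.sum_congr rfl fun x _ => ?_
  refine Finset.sum_congr rfl fun y _ => ?_
  simp only
  congr 1
  rw [← Gss_ex_zero]
  apply Gss_ex_congr (-((⟨x, y⟩ : OO n t) * cjO w).im)
  have h3 : cjO (3 * w) = ((3 : ℤ) : OO n t) * cjO w := by
    rw [cjO_mul]
    congr 1
  have h : ((⟨x, y⟩ : OO n t) * cjO (3 * w)) =
      ((3 : ℤ) : OO n t) * ((⟨x, y⟩ : OO n t) * cjO w) := by
    rw [h3]
    ring
  rw [h, im_mul (((3 : ℤ) : OO n t)), re_int, im_int]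
  push_cast
  ring

theorem tGss (hF : S_Frb) (hX : S_Chx) : S_Gss := by
  intro n t _ X hI F0 hF0
  have hu3 : ∀ u : OO n t, ¬ Cop u 3 → (3 : OO n t) ∣ u := by
    intro u hu
    by_contra h
    exact hu (((hF n t).2.1 u).2 h)
  have hS := hX n t X hI
  refine ⟨?_, ?_, ?_⟩
  · apply hI.pos4
    rw [Nm_nat]
    have h3 : F0 % 3 = 1 ∨ F0 % 3 = 2 := by
      have h4 : ¬ 3 ∣ F0 := by
        intro h
        have := Nat.Coprime.eq_one_of_dvd (Nat.Coprime.symm hF0) h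
        omega
      omega
    have h5 : ((F0 : ℤ)) = 3 * ((F0 / 3 : ℕ) : ℤ) + ((F0 % 3 : ℕ) : ℤ) := by
      exact_mod_cast (Nat.div_add_mod F0 3).symm
    rcases h3 with h | h
    · rw [h] at h5
      rw [h5]
      exact ⟨3 * ((F0 / 3 : ℕ) : ℤ) ^ 2 + 2 * ((F0 / 3 : ℕ) : ℤ), by push_cast; ring⟩
    · rw [h] at h5
      rw [h5]
      exact ⟨3 * ((F0 / 3 : ℕ) : ℤ) ^ 2 + 4 * ((F0 / 3 : ℕ) : ℤ) + 1, by push_cast; ring⟩
  · intro k hk u
    have hk0 : k ≠ 0 := by omega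
    have hodd : Odd k := by
      rcases hk with rfl | rfl | rfl | rfl <;> decide
    have hm1 : (-1 : ℂ) ^ k = -1 := hodd.neg_one_pow
    rw [Gss_fac hI]
    by_cases hu : Cop u 3
    · rw [Gss_unit hF hX hI k u hu, Gss_main hI k hk0 (fun m => ex (-(m : ℂ) / 3)), hm1]
      have e0 : ex (-((0 : ℤ) : ℂ) / 3) = 1 := by
        rw [← Gss_ex_zero]
        congr 1
        simp
      have e1 : ex (-((1 : ℤ) : ℂ) / 3) = ex (-1 / 3) := by
        congr 1
        push_cast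
        ring
      have e2 : ex (-((2 : ℤ) : ℂ) / 3) = ex (1 / 3) := by
        rw [← Gss_ex_23]
        congr 1
      rw [e0, e1, e2]
      ring
    · rw [Gss_div k u (hu3 u hu), Gss_main hI k hk0 (fun _ => 1), hm1, hI.zero u hu,
        zero_pow (by omega : 5 * k ≠ 0)]
      ring
  · intro k hk u
    have hk0 : k ≠ 0 := by omega
    have heven : Even k := by
      rcases hk with rfl | rfl <;> decide
    have hm1 : (-1 : ℂ) ^ k = 1 := heven.neg_one_pow
    have hSk : SX X k = -1 := by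
      rcases hk with rfl | rfl
      · exact hS.2.2.1
      · exact hS.2.2.2.1
    rw [Gss_fac hI]
    by_cases hu : Cop u 3
    · rw [Gss_unit hF hX hI k u hu, Gss_main hI k hk0 (fun m => ex (-(m : ℂ) / 3)), hm1, hSk]
      have e0 : ex (-((0 : ℤ) : ℂ) / 3) = 1 := by
        rw [← Gss_ex_zero]
        congr 1
        simp
      have e1 : ex (-((1 : ℤ) : ℂ) / 3) = ex (-1 / 3) := by
        congr 1
        push_cast
        ring
      have e2 : ex (-((2 : ℤ) : ℂ) / 3) = ex (1 / 3) := by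
        rw [← Gss_ex_23]
        congr 1
      rw [e0, e1, e2]
      linear_combination (-X (F0 : OO n t) ^ k * X u ^ (5 * k)) * Gss_ex_sum
    · rw [Gss_div k u (hu3 u hu), Gss_main hI k hk0 (fun _ => 1), hm1, hI.zero u hu, hSk,
        zero_pow (by omega : 5 * k ≠ 0)]
      ring

end Pool.Agent.DM.C
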