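import Pool.Agent.Lib.DM.C.Spec9

/-!
# Part C for DM (inert case): the constant `kH`
-/

set_option autoImplicit false

open scoped Pointwise Topology nonZeroDivisors
open Filter

noncomputable section

namespace Pool.Agent.DM.C

open Pool.Agent.MuZ Pool.Agent.FW NumberField IsDedekindDomain Pool.Agent.DM
open Pool.Agent.DI (io ofC io_inj exists_io io_ofC ofC_io VP MP UP TP ex)
open Pool.Agent.DN
open Pool.Agent.DN.C (rsum PerO)
open Pool.Agent.DS.C (ftp Ts Hs Pf h0 T0)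

private theorem Kh_add {P : Ideal ZZ} [P.IsPrime] {c x y : Om} (hx : TP P c x) (hy : TP P c y) :
    TP P c (x + y) := by
  obtain ⟨x', hx', rfl⟩ := hx
  obtain ⟨y', hy', rfl⟩ := hy
  exact ⟨x' + y', DI.VP.add hx' hy', by ring⟩

private theorem Kh_three {n t : ℕ} {P : Ideal ZZ} [P.IsPrime] [SqN n t] {v : OO n t}
    (h : (3 : OO n t) ∣ v) : TP P 3 (toO v) := by
  obtain ⟨w, rfl⟩ := h
  refine ⟨toO w, toO_VP w, ?_⟩
  have h3 : toO (3 : OO n t) = 3 := by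
    have := toO_nat (n := n) (t := t) 3
    rwa [Nat.cast_ofNat, Nat.cast_ofNat] at this
  rw [toO_mul, h3]

/-- The constant of the hidden symmetry. -/
theorem tkH (h0 : S_T0) (hZ : S_Ztx) (hX : S_Chx) (hF : S_Frb) : S_kH := by
  intro n t _ P hP k hk
  have hPr : P.IsPrime := hP.1.1
  have h3 : MP P 3 := hP.2
  obtain ⟨f1, f2, -, -, -⟩ := hF n t
  have h33 : ∀ v : OO n t, (3 : OO n t) ∣ v ↔ (3 : ℤ) ∣ v.re ∧ (3 : ℤ) ∣ v.im := by
    intro v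
    have := nat_dvd_iff (n := n) (t := t) 3 v
    rwa [Nat.cast_ofNat] at this
  have hc : ∀ j : ℕ, Cop (⟨j, 1⟩ : OO n t) 3 := by
    intro j
    rw [f2, h33]
    rintro ⟨-, h⟩
    have h' : (3 : ℤ) ∣ 1 := h
    omega
  set s : Om := ∑ j ∈ Finset.range 3, zt P (⟨j, 1⟩ : OO n t) ^ k with hs
  have hkh : kH n t P k = s ^ 2 / 9 := rfl
  -- the equation
  have he : (s ^ 2 - 1) ^ 2 = -8 := by
    have hx := ((hX n t _ (hZ n t P hP)).2.2.2.2.1 k hk).1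
    have e : SX (fun v : OO n t => io (zt P v)) k = io s := by
      rw [hs, map_sum]
      unfold SX
      refine Finset.sum_congr rfl fun j _ => ?_
      rw [map_pow]
    rw [e] at hx
    apply io_inj
    rw [map_pow, map_sub, map_pow, map_one, map_neg, hx]
    have : io (8 : Om) = 8 := by
      have := map_natCast io 8
      rwa [Nat.cast_ofNat, Nat.cast_ofNat] at this
    rw [this]
  have hq : 9 * kH n t P k ^ 2 - 2 * kH n t P k + 1 = 0 := by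
    rw [hkh]
    linear_combination he / 9
  -- integrality of `s / 3`
  have h3s : TP P 3 s := by
    have key : ∀ g : OO n t → OO n t, (∀ j : ℕ, zt P (⟨j, 1⟩ : OO n t) ^ k = zt P (g ⟨j, 1⟩)) →
        (∀ j : ℕ, Cop (g ⟨j, 1⟩) 3) →
        (3 : OO n t) ∣ g ⟨(0 : ℕ), 1⟩ + g ⟨(1 : ℕ), 1⟩ + g ⟨(2 : ℕ), 1⟩ → TP P 3 s := by
      intro g hg hgc hgs
      have a := fun j : ℕ => ((h0.2 n t P hP (g ⟨j, 1⟩) 1).2 (hgc j) (cop_one 3)).2.1
      have b := Kh_add (Kh_add (Kh_add (a 0) (a 1)) (a 2)) (Kh_three (P := P) hgs)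
      rw [toO_add, toO_add] at b
      have e : zt P (g ⟨(0 : ℕ), 1⟩) - toO (g ⟨(0 : ℕ), 1⟩) +
          (zt P (g ⟨(1 : ℕ), 1⟩) - toO (g ⟨(1 : ℕ), 1⟩)) +
          (zt P (g ⟨(2 : ℕ), 1⟩) - toO (g ⟨(2 : ℕ), 1⟩)) +
          (toO (g ⟨(0 : ℕ), 1⟩) + toO (g ⟨(1 : ℕ), 1⟩) + toO (g ⟨(2 : ℕ), 1⟩)) = s := by
        rw [hs]
        simp only [hg, Finset.sum_range_succ, Finset.sum_range_zero]
        ring
      rwa [e] at b
    rcases hk with rfl | rfl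
    · refine key id (fun j => pow_one _) hc ?_
      rw [h33]
      simp only [id, QuadraticAlgebra.re_add, QuadraticAlgebra.im_add]
      exact ⟨by norm_num, by norm_num⟩
    · refine key (fun v => v ^ 3) (fun j => ?_) (fun j => ?_) ?_
      · have m1 := ((h0.2 n t P hP (⟨j, 1⟩ : OO n t) ⟨j, 1⟩).2 (hc j) (hc j)).2.2.1
        have m2 := ((h0.2 n t P hP ((⟨j, 1⟩ : OO n t) * ⟨j, 1⟩) ⟨j, 1⟩).2
          (cop_mul (hc j) (hc j)) (hc j)).2.2.1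
        have e : (⟨j, 1⟩ : OO n t) ^ 3 = ⟨j, 1⟩ * ⟨j, 1⟩ * ⟨j, 1⟩ := by ring
        change _ = zt P ((⟨j, 1⟩ : OO n t) ^ 3)
        rw [e, m2, m1]
        ring
      · have e : (⟨j, 1⟩ : OO n t) ^ 3 = ⟨j, 1⟩ * ⟨j, 1⟩ * ⟨j, 1⟩ := by ring
        change Cop ((⟨j, 1⟩ : OO n t) ^ 3) 3
        rw [e]
        exact cop_mul (cop_mul (hc j) (hc j)) (hc j)
      · have g := dvd_add (dvd_add (f1 ⟨(0 : ℕ), 1⟩) (f1 ⟨(1 : ℕ), 1⟩)) (f1 ⟨(2 : ℕ), 1⟩)
        have g2 : (3 : OO n t) ∣ cjO (⟨(0 : ℕ), 1⟩ : OO n t) + cjO ⟨(1 : ℕ), 1⟩ +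
            cjO ⟨(2 : ℕ), 1⟩ := by
          rw [h33]
          simp only [cjO, QuadraticAlgebra.re_add, QuadraticAlgebra.im_add]
          constructor
          · refine ⟨1 + t, ?_⟩
            push_cast
            ring
          · norm_num
        have g3 := dvd_add g g2
        have e : (⟨(0 : ℕ), 1⟩ : OO n t) ^ 3 - cjO ⟨(0 : ℕ), 1⟩ +
            ((⟨(1 : ℕ), 1⟩ : OO n t) ^ 3 - cjO ⟨(1 : ℕ), 1⟩) +
            ((⟨(2 : ℕ), 1⟩ : OO n t) ^ 3 - cjO ⟨(2 : ℕ), 1⟩) +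
            (cjO (⟨(0 : ℕ), 1⟩ : OO n t) + cjO ⟨(1 : ℕ), 1⟩ + cjO ⟨(2 : ℕ), 1⟩) =
            (⟨(0 : ℕ), 1⟩ : OO n t) ^ 3 + (⟨(1 : ℕ), 1⟩ : OO n t) ^ 3 +
              (⟨(2 : ℕ), 1⟩ : OO n t) ^ 3 := by ring
        rwa [e] at g3
  have hv : VP P (kH n t P k) := by
    obtain ⟨y, hy, hsy⟩ := h3s
    have e : kH n t P k = y ^ 2 := by
      rw [hkh, hsy]
      ring
    rw [e]
    exact DI.VP.pow hy 2
  refine ⟨?_, hv, ?_, ?_⟩
  · intro h
    rw [h] at hq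
    norm_num at hq
  · have e : kH n t P k + 1 = 3 * (kH n t P k - 3 * kH n t P k ^ 2) := by
      linear_combination hq
    rw [e]
    exact DI.MP.mul_right h3 (DI.VP.sub hv (DI.VP.mul h3.vp (DI.VP.pow hv 2)))
  · intro σ hσ
    have hz : ∀ j : ℕ, σ (zt P (⟨j, 1⟩ : OO n t)) = zt P (⟨j, 1⟩ : OO n t) := fun j =>
      ((h0.2 n t P hP (⟨j, 1⟩ : OO n t) 1).2 (hc j) (cop_one 3)).2.2.2.2.2.2 σ hσ
    have hs' : σ s = s := by
      rw [hs, map_sum]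
      refine Finset.sum_congr rfl fun j _ => ?_
      rw [map_pow, hz]
    have h9 : σ (9 : Om) = 9 := by
      have := map_natCast σ 9
      rwa [Nat.cast_ofNat] at this
    rw [hkh, map_div₀, map_pow, hs', h9]

end Pool.Agent.DM.C
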