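import Pool.Agent.Lib.DM.C.Spec9

/-!
# Part C for DM (inert case): Lcx, the local identities (author helper71)
-/

set_option autoImplicit false

open scoped Pointwise Topology nonZeroDivisors
open Filter

noncomputable section

namespace Pool.Agent.DM.C

open Pool.Agent.MuZ Pool.Agent.FW NumberField IsDedekindDomain Pool.Agent.DM
open Pool.Agent.DI (io ofC io_inj exists_io io_ofC ofC_io VP MP UP TP ex)
open Pool.Agent.DN
open Pool.Agent.DN.C (rsum PerO)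
open Pool.Agent.DS.C (ftp Ts Hs Pf h0 T0)

variable {n t : ℕ}

private lemma ex_add' (x y : ℂ) : ex (x + y) = ex x * ex y := by
  unfold ex
  rw [mul_add, Complex.exp_add]

private lemma ex_int' (n' : ℤ) : ex (n' : ℂ) = 1 := by
  unfold ex
  have h : 2 * (Real.pi : ℂ) * Complex.I * (n' : ℂ) = (n' : ℂ) * (2 * Real.pi * Complex.I) := by ring
  rw [h]
  exact Complex.exp_int_mul_two_pi_mul_I n'

private lemma ex_congr' {x y : ℂ} (n' : ℤ) (h : x = y + n') : ex x = ex y := by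
  rw [h, ex_add', ex_int', mul_one]

private lemma e3 : ex (-1 / 3) = ex (1 / 3) ^ 2 ∧ ex (1 / 3) ^ 2 + ex (1 / 3) + 1 = 0 := by
  have h1 : ex (1 / 3) ^ 2 = ex (-1 / 3) := by
    rw [sq, ← ex_add']
    refine ex_congr' 1 ?_
    push_cast
    norm_num
  have h3 : ex (1 / 3) ^ 3 = 1 := by
    rw [pow_succ, h1, ← ex_add']
    have : (-1 / 3 + 1 / 3 : ℂ) = ((0 : ℤ) : ℂ) := by push_cast; norm_num
    rw [this, ex_int']
  have hne : ex (1 / 3) ≠ 1 := by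
    have hp := Complex.isPrimitiveRoot_exp 3 (by norm_num)
    have h := hp.ne_one (by norm_num)
    intro h'
    apply h
    rw [← h']
    unfold ex
    congr 1
    push_cast
    ring
  refine ⟨h1.symm, ?_⟩
  have h4 : (ex (1 / 3) - 1) * (ex (1 / 3) ^ 2 + ex (1 / 3) + 1) = 0 := by
    linear_combination h3
  rcases mul_eq_zero.mp h4 with h | h
  · exact absurd (sub_eq_zero.mp h) hne
  · exact h

private lemma exd1 {m : ℤ} (h : (3 : ℤ) ∣ m - 1) {x : ℂ} (hx : x = (m : ℂ) / 3) :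
    ex x = ex (1 / 3) := by
  obtain ⟨k, hk⟩ := h
  refine ex_congr' k ?_
  have hm : (m : ℂ) = 3 * k + 1 := by
    have : m = 3 * k + 1 := by omega
    rw [this]
    push_cast
    ring
  rw [hx, hm]
  ring

private lemma exd2 {m : ℤ} (h : (3 : ℤ) ∣ m + 1) {x : ℂ} (hx : x = (m : ℂ) / 3) :
    ex x = ex (-1 / 3) := by
  obtain ⟨k, hk⟩ := h
  refine ex_congr' k ?_
  have hm : (m : ℂ) = 3 * k - 1 := by
    have : m = 3 * k - 1 := by omega
    rw [this]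
    push_cast
    ring
  rw [hx, hm]
  ring

private lemma rho {X : OO n t → ℂ} (hX : IsX X) {c n1 : ℕ} (hc : c % 3 = n1 % 3) (hn : ¬ 3 ∣ n1)
    (hN : ∀ v : OO n t, Cop v 3 → (3 : ℤ) ∣ Nm v - 1 ∨ (3 : ℤ) ∣ Nm v + 1) :
    ∃ ρ : ℂ, ρ ^ 2 = -3 / 4 ∧ ∀ v : OO n t, Cop v 3 →
      QX n1 v = -1 / 2 + ρ * X v ^ 4 ∧ QX (-(n1 : ℤ)) v = -1 / 2 - ρ * X v ^ 4 ∧
        ex (-(c * Nm v) / (3 : ℕ)) = -1 / 2 - ρ * X v ^ 4 := by
  obtain ⟨h1, h2⟩ := e3
  have key : ∀ (s : ℤ), (s = 1 ∨ s = -1) → (3 : ℤ) ∣ n1 - s → (3 : ℤ) ∣ c - s →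
      ∀ v : OO n t, Cop v 3 →
      QX n1 v = -1 / 2 + (s * (ex (1 / 3) + 1 / 2)) * X v ^ 4 ∧
        QX (-(n1 : ℤ)) v = -1 / 2 - (s * (ex (1 / 3) + 1 / 2)) * X v ^ 4 ∧
        ex (-(c * Nm v) / (3 : ℕ)) = -1 / 2 - (s * (ex (1 / 3) + 1 / 2)) * X v ^ 4 := by
    intro s hs hn1 hc1 v hv
    obtain ⟨k1, hk1⟩ := hn1
    obtain ⟨k2, hk2⟩ := hc1
    have en : (n1 : ℤ) = 3 * k1 + s := by omega
    have ec : (c : ℤ) = 3 * k2 + s := by omega
    have qn : ∀ e : ℤ, QX e v = ex (((e * Nm v : ℤ) : ℂ) / 3) := by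
      intro e
      unfold QX
      push_cast
      rfl
    have qc : ex (-(c * Nm v) / (3 : ℕ)) = ex (((-((c : ℤ) * Nm v) : ℤ) : ℂ) / 3) := by
      push_cast
      rfl
    rw [qn, qn, qc, en, ec]
    rcases hN v hv with ⟨y, hy⟩ | ⟨y, hy⟩
    · have eN : Nm v = 3 * y + 1 := by omega
      have x4 := hX.pos4 v ⟨y, hy⟩
      rw [x4, eN]
      rcases hs with rfl | rfl
      · rw [exd1 (m := (3 * k1 + 1) * (3 * y + 1)) ⟨3 * k1 * y + k1 + y, by ring⟩ rfl,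
          exd2 (m := -(3 * k1 + 1) * (3 * y + 1)) ⟨-(3 * k1 * y + k1 + y), by ring⟩ rfl,
          exd2 (m := -((3 * k2 + 1) * (3 * y + 1))) ⟨-(3 * k2 * y + k2 + y), by ring⟩ rfl, h1]
        push_cast
        refine ⟨by ring, by linear_combination h2, by linear_combination h2⟩
      · rw [exd2 (m := (3 * k1 + -1) * (3 * y + 1)) ⟨3 * k1 * y + k1 - y, by ring⟩ rfl,
          exd1 (m := -(3 * k1 + -1) * (3 * y + 1)) ⟨-(3 * k1 * y + k1 - y), by ring⟩ rfl,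
          exd1 (m := -((3 * k2 + -1) * (3 * y + 1))) ⟨-(3 * k2 * y + k2 - y), by ring⟩ rfl, h1]
        push_cast
        refine ⟨by linear_combination h2, by ring, by ring⟩
    · have eN : Nm v = 3 * y - 1 := by omega
      have x4 := hX.neg4 v ⟨y, hy⟩
      rw [x4, eN]
      rcases hs with rfl | rfl
      · rw [exd2 (m := (3 * k1 + 1) * (3 * y - 1)) ⟨3 * k1 * y - k1 + y, by ring⟩ rfl,
          exd1 (m := -(3 * k1 + 1) * (3 * y - 1)) ⟨-(3 * k1 * y - k1 + y), by ring⟩ rfl,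
          exd1 (m := -((3 * k2 + 1) * (3 * y - 1))) ⟨-(3 * k2 * y - k2 + y), by ring⟩ rfl, h1]
        push_cast
        refine ⟨by linear_combination h2, by ring, by ring⟩
      · rw [exd1 (m := (3 * k1 + -1) * (3 * y - 1)) ⟨3 * k1 * y - k1 - y, by ring⟩ rfl,
          exd2 (m := -(3 * k1 + -1) * (3 * y - 1)) ⟨-(3 * k1 * y - k1 - y), by ring⟩ rfl,
          exd2 (m := -((3 * k2 + -1) * (3 * y - 1))) ⟨-(3 * k2 * y - k2 - y), by ring⟩ rfl, h1]
        push_cast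
        refine ⟨by ring, by linear_combination h2, by linear_combination h2⟩
  have hcase : (3 : ℤ) ∣ n1 - 1 ∧ (3 : ℤ) ∣ c - 1 ∨ (3 : ℤ) ∣ n1 - (-1) ∧ (3 : ℤ) ∣ c - (-1) := by
    omega
  rcases hcase with ⟨a1, a2⟩ | ⟨a1, a2⟩
  · refine ⟨_, ?_, key 1 (Or.inl rfl) a1 a2⟩
    push_cast
    linear_combination h2
  · refine ⟨_, ?_, key (-1) (Or.inr rfl) a1 a2⟩
    push_cast
    linear_combination h2

private lemma ftp_lin (F0 : ℕ) (x y : ℂ) (f g : OO n t → ℂ) (u : OO n t) :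
    ftp 3 F0 (fun v => x * f v + y * g v) u = x * ftp 3 F0 f u + y * ftp 3 F0 g u := by
  unfold ftp rsum
  simp only [Finset.mul_sum, ← Finset.sum_add_distrib]
  refine Finset.sum_congr rfl fun i _ => Finset.sum_congr rfl fun j _ => ?_
  ring

private lemma ftp_congr (F0 : ℕ) {f g : OO n t → ℂ} (h : ∀ v, f v = g v) (u : OO n t) :
    ftp 3 F0 f u = ftp 3 F0 g u := by
  have : f = g := funext h
  rw [this]

private lemma alg1 {S ρ φ φ' y : ℂ} (h1 : S ^ 2 * φ' = -3 * y * φ) :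
    φ * (-1 / 2 - ρ * y) = (-1 + S ^ 2 / 3) / 2 * φ + S ^ 2 / 3 * (-1 / 2 * φ + ρ * φ') := by
  linear_combination (-ρ / 3) * h1

private lemma alg2 {S ρ φ φ' y : ℂ} (h1 : S ^ 2 * φ' = -3 * y * φ)
    (h2 : S ^ 2 * (y * φ') = -3 * φ) (hS : S ≠ 0) (hρ : ρ ^ 2 = -3 / 4) :
    (-1 / 2 * φ + ρ * φ') * (-1 / 2 - ρ * y) =
      (-3 / (4 * (S ^ 2 / 3)) - S ^ 2 / 3 / 4) * φ +
        (-1 / 2 - S ^ 2 / 3 / 2) * (-1 / 2 * φ + ρ * φ') := by
  have e : -3 / (4 * (S ^ 2 / 3)) = -9 / 4 * (S ^ 2)⁻¹ := by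
    field_simp
    norm_num
  have hW : S ^ 2 * (S ^ 2)⁻¹ = 1 := mul_inv_cancel₀ (pow_ne_zero 2 hS)
  rw [e]
  linear_combination (ρ / 6) * h1 + (3 / 4 * (S ^ 2)⁻¹) * h2 - (y * φ') * hρ -
    (3 / 4 * y * φ') * hW

theorem tLcx (hG : S_Gss) (hX : S_Chx) (hF : S_Frb) : S_Lcx := by
  intro n t _ X hIX F0 c n1 hF0 hc hn
  obtain ⟨g1, g2, g3⟩ := hG n t X hIX F0 hF0
  obtain ⟨x1, x2, x3, x4, x5, -, x8⟩ := hX n t X hIX
  obtain ⟨-, -, f3, -, -⟩ := hF n t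
  obtain ⟨ρ, hρ, hv⟩ := rho hIX hc hn fun v hv => (f3 v hv).2
  -- the functions
  have fQ : ∀ k : ℕ, 1 ≤ k → ∀ u : OO n t, ftp 3 F0 (fun v => X v ^ k * QX n1 v) u =
      -1 / 2 * ftp 3 F0 (fun v => X v ^ k) u + ρ * ftp 3 F0 (fun v => X v ^ (k + 4)) u := by
    intro k hk u
    rw [← ftp_lin]
    refine ftp_congr F0 (fun v => ?_) u
    by_cases h : Cop v 3
    · rw [(hv v h).1, pow_add]
      ring
    · rw [hIX.zero v h, zero_pow (by omega), zero_pow (by omega)]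
      ring
  have fQ' : ∀ k : ℕ, 1 ≤ k → ∀ u : OO n t, ftp 3 F0 (fun v => X v ^ k * QX (-(n1 : ℤ)) v) u =
      -1 / 2 * ftp 3 F0 (fun v => X v ^ k) u + (-ρ) * ftp 3 F0 (fun v => X v ^ (k + 4)) u := by
    intro k hk u
    rw [← ftp_lin]
    refine ftp_congr F0 (fun v => ?_) u
    by_cases h : Cop v 3
    · rw [(hv v h).2.1, pow_add]
      ring
    · rw [hIX.zero v h, zero_pow (by omega), zero_pow (by omega)]
      ring
  refine ⟨fun k hk u => ?_, fun u => ?_⟩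
  · have hk1 : 1 ≤ k := by omega
    obtain ⟨-, hS⟩ := x5 k hk
    have hSS : SX X k * SX X (k + 4) = -3 := by
      rcases hk with rfl | rfl
      · exact x1
      · exact x2
    have p1 := g2 k (by omega) u
    have p2 := g2 (k + 4) (by omega) u
    rw [ftp_lin, ftp_lin, fQ k hk1]
    by_cases h : Cop u 3
    · rw [(hv u h).2.2]
      have h8 := x8 u h
      have h1 : SX X k ^ 2 * ftp 3 F0 (fun v => X v ^ (k + 4)) u =
          -3 * X u ^ 4 * ftp 3 F0 (fun v => X v ^ k) u := by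
        rw [p1, p2]
        have e1 : X (F0 : OO n t) ^ (k + 4) = X (F0 : OO n t) ^ k := by rw [pow_add, g1, mul_one]
        have e2 : X u ^ (5 * (k + 4)) = X u ^ (5 * k) * X u ^ 4 := by
          rw [show 5 * (k + 4) = 5 * k + 4 + 8 * 2 by ring, pow_add, pow_add, pow_mul (X u) 8 2, h8,
            one_pow, mul_one]
        rw [e1, e2]
        linear_combination (X (F0 : OO n t) ^ k * (ex (-1 / 3) - ex (1 / 3)) * SX X k *
          X u ^ (5 * k) * X u ^ 4) * hSS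
      have h2 : SX X k ^ 2 * (X u ^ 4 * ftp 3 F0 (fun v => X v ^ (k + 4)) u) =
          -3 * ftp 3 F0 (fun v => X v ^ k) u := by
        linear_combination (X u ^ 4) * h1 + (-3 * ftp 3 F0 (fun v => X v ^ k) u) * h8
      exact ⟨alg1 h1, alg2 h1 h2 hS hρ⟩
    · have hz := hIX.zero u h
      rw [p1, p2, hz, zero_pow (by omega), zero_pow (by omega)]
      constructor <;> ring
  · have p1 := g3 2 (Or.inl rfl) u
    have p2 : ftp 3 F0 (fun v => X v ^ (2 + 4)) u =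
        X (F0 : OO n t) ^ 6 * 3 * X u ^ (5 * 6) := g3 6 (Or.inr rfl) u
    rw [fQ 2 (by norm_num), fQ' 2 (by norm_num), p1, p2]
    by_cases h : Cop u 3
    · rw [(hv u h).2.2]
      have h8 := x8 u h
      have e1 : X (F0 : OO n t) ^ 6 = X (F0 : OO n t) ^ 2 := by
        rw [show (6 : ℕ) = 2 + 4 by norm_num, pow_add, g1, mul_one]
      have e2 : X u ^ (5 * 2) = X u ^ 2 := by
        rw [show 5 * 2 = 2 + 8 by norm_num, pow_add, h8, mul_one]
      have e3' : X u ^ (5 * 6) = X u ^ 2 * X u ^ 4 := by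
        rw [show 5 * 6 = 2 + 4 + 8 * 3 by norm_num, pow_add, pow_add, pow_mul (X u) 8 3, h8,
          one_pow, mul_one]
      rw [e1, e2, e3']
      constructor
      · ring
      · linear_combination (-(X (F0 : OO n t) ^ 2 * 3 * X u ^ 2 * X u ^ 8)) * hρ +
          (3 / 4 * (X (F0 : OO n t) ^ 2 * 3 * X u ^ 2)) * h8
    · have hz := hIX.zero u h
      rw [hz]
      constructor <;> ring

end Pool.Agent.DM.C
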