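import Pool.Agent.Lib.DM.C.Spec9
import Pool.Agent.Lib.DM.CV.Bas

/-!
# Part C for DM (inert case), module Rep: `E_b` and `VX`
-/

set_option autoImplicit false

open scoped Pointwise Topology nonZeroDivisors
open Filter

noncomputable section

namespace Pool.Agent.DM.C

open Pool.Agent.MuZ Pool.Agent.FW NumberField IsDedekindDomain Pool.Agent.DM
open Pool.Agent.DI (io ofC io_inj exists_io io_ofC ofC_io VP MP UP TP ex)
open Pool.Agent.DN
open Pool.Agent.DN.C (rsum PerO)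
open Pool.Agent.DS.C (ftp Ts Hs Pf h0 T0)

/-- The root of unity of the period. -/
private theorem Rep_ze (N : ℕ) : io (zet 3 ^ N) = ex (N / 3) := by
  rw [map_pow, CV_io_zet (by norm_num : 0 < 3)]
  unfold ex
  rw [← Complex.exp_nat_mul]
  congr 1
  push_cast
  ring

private theorem Rep_exn (x : ℂ) : ex (-x) * ex x = 1 := by
  unfold ex
  rw [← Complex.exp_add, ← Complex.exp_zero]
  congr 1
  ring

/-- The denominator of `r/3`. -/
private theorem Rep_den {r : ℚ} {N : ℕ} (h3 : N.Coprime 3) (hr : r.den.Coprime N) :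
    (r / 3).den.Coprime N := by
  have h1 : (r / 3).den ∣ r.den * 3 := by
    have h2 := Rat.mul_den_dvd r (3⁻¹)
    have h4 : ((3 : ℚ)⁻¹).den = 3 := by norm_num
    rw [h4] at h2
    rwa [div_eq_mul_inv]
  exact Nat.Coprime.coprime_dvd_left h1 (Nat.Coprime.mul_left hr h3.symm)

theorem tRep (hR : DS.S_R1) (hL : DS.C.S_Lh) (hT : S_Tm) : S_Rep := by
  intro n t _ f M m b hm hb hM P k r hr
  have hfok := hm.toFok
  have hf0 := hm.pos
  obtain ⟨-, -, -, -, -, -, -, hm3, -⟩ := w_fm hm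
  obtain ⟨hbG, -, hb2, hb3, hbf, hmb⟩ := w_fb hm hb
  have hrm : r.den.Coprime (NI m) := Nat.Coprime.coprime_dvd_right hM.nm hr
  have hx : (r / 3).den.Coprime (NI m) := Rep_den hm3 hrm
  obtain ⟨-, frb, -⟩ := fra hR hm.g hb.g
  -- the terms
  have key : ∀ α ∈ tm n t f, io (etaM (3 * f) m (sp α * b) (r / 3)) * fr b =
      (toC α)⁻¹ * h0 (3 * f) m (sp α * b) (r / 3) ∧
      io (etaM (3 * f) m (sp α * b) ((r + 1) / 3)) =
        QX (NI (m * b) : ℤ) α * io (etaM (3 * f) m (sp α * b) (r / 3)) ∧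
      io (etaM (3 * f) m (sp α * b) ((r - 1) / 3)) =
        QX (-(NI (m * b) : ℤ)) α * io (etaM (3 * f) m (sp α * b) (r / 3)) := by
    intro α hα
    obtain ⟨hα1, hα3⟩ := w_tm hT hfok hα
    have hαc : Cop α (3 * f) := w_tm_cop hT hfok hα
    have hα0 : α ≠ 0 := CV_ne_of_cop (by norm_num) hα3
    have hF : FB f (sp α * b) := w_fb_mul (w_fb_sp hf0 hαc) hb
    have h4 : (4 : OO n t) ∣ α - 1 := by
      have h5 := CV_cast_dvd (dvd_trans ⟨5, by norm_num⟩ hfok.dvd : 4 ∣ f) hα1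
      rwa [w_cast4] at h5
    have hA : toC α ≠ 0 := toC_ne hα0
    have h1 := (hom1 hbG.ne hb2 hα0 h4).1
    obtain ⟨f0, g0, -, -, -, l1, -, -⟩ := fra hR hm.g hF.g
    have h2 := (gC4 hR n t (3 * f) m (sp α * b) hm.g hF.g (r / 3).num (r / 3).den (r / 3).pos hx).2.1
    have e0 : (((r / 3).num : ℚ) / ((r / 3).den : ℚ)) = r / 3 := Rat.num_div_den _
    rw [e0] at h2
    have h3 := (hL n t (3 * f) m (sp α * b) hm.g hF.g).2.2.2.2 (r / 3)
    have hN : ((NI (m * (sp α * b)) : ℕ) : ℂ) = (((NI (m * b) : ℕ) : ℤ) : ℂ) * ((Nm α : ℤ) : ℂ) := by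
      have h6 : ((NI (m * (sp α * b)) : ℕ) : ℤ) = ((NI (m * b) : ℕ) : ℤ) * Nm α := by
        rw [CV_NI_mul, CV_NI_mul, CV_NI_mul, ← CV_NI_sp]
        push_cast
        ring
      have h7 : (((NI (m * (sp α * b)) : ℕ) : ℤ) : ℂ) = ((((NI (m * b) : ℕ) : ℤ) * Nm α : ℤ) : ℂ) := by
        rw [h6]
      rw [Int.cast_natCast] at h7
      rw [h7]
      push_cast
      ring
    have per := etaM_per hR hm.g hF.g (l := 3) (by norm_num) (Or.inl (dvd_mul_right 3 f))
    refine ⟨?_, ?_, ?_⟩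
    · rw [h2, l1, h3, h1]
      field_simp
    · have h8 := per (r / 3)
      have e1 : r / 3 + 1 / ((3 : ℕ) : ℚ) = (r + 1) / 3 := by
        push_cast
        ring
      rw [e1] at h8
      rw [h8, map_mul, Rep_ze, hN]
      rfl
    · have h8 := per ((r - 1) / 3)
      have e1 : (r - 1) / 3 + 1 / ((3 : ℕ) : ℚ) = r / 3 := by
        push_cast
        ring
      rw [e1] at h8
      rw [h8, map_mul, Rep_ze, hN, ← mul_assoc]
      unfold QX
      have e2 : (((-(NI (m * b) : ℤ) : ℤ) : ℂ) * ((Nm α : ℤ) : ℂ) / 3) =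
          -((((NI (m * b) : ℕ) : ℤ) : ℂ) * ((Nm α : ℤ) : ℂ) / 3) := by
        push_cast
        ring
      rw [e2, Rep_exn, one_mul]
  refine ⟨?_, ?_, ?_⟩
  · unfold etE VX
    rw [map_sum, Finset.sum_mul]
    refine Finset.sum_congr rfl fun α hα => ?_
    rw [map_mul, map_pow, mul_assoc, (key α hα).1]
  · unfold etE VX
    rw [map_sum, Finset.sum_mul]
    refine Finset.sum_congr rfl fun α hα => ?_
    rw [map_mul, map_pow, (key α hα).2.1, mul_assoc, mul_assoc, (key α hα).1, ← mul_assoc]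
  · unfold etE VX
    rw [map_sum, Finset.sum_mul]
    refine Finset.sum_congr rfl fun α hα => ?_
    rw [map_mul, map_pow, (key α hα).2.2, mul_assoc, mul_assoc, (key α hα).1, ← mul_assoc]

end Pool.Agent.DM.C
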