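import Pool.Agent.Lib.DM.C.Spec9

/-!
# Part C for DM (inert case), module Tm: the system `tm` (helper86)
-/

set_option autoImplicit false

open scoped Pointwise Topology nonZeroDivisors
open Filter

noncomputable section

namespace Pool.Agent.DM.C

open Pool.Agent.MuZ Pool.Agent.FW NumberField IsDedekindDomain Pool.Agent.DM
open Pool.Agent.DI (io ofC io_inj exists_io io_ofC ofC_io VP MP UP TP ex)
open Pool.Agent.DN
open Pool.Agent.DN.C (rsum PerO)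
open Pool.Agent.DS.C (ftp Ts Hs Pf h0 T0)

variable {n t : ℕ}

private theorem f_sq {f : ℕ} (h : f.Coprime 3) : (3 : ℤ) ∣ (f : ℤ) ^ 2 - 1 := by
  have h3 : ¬ 3 ∣ f := by
    intro hd
    have h1 := Nat.dvd_gcd hd (dvd_refl 3)
    rw [Nat.Coprime.gcd_eq_one h] at h1
    omega
  obtain ⟨a, ha⟩ : ∃ a : ℤ, (f : ℤ) = 3 * a + 1 ∨ (f : ℤ) = 3 * a + 2 := ⟨(f / 3 : ℕ), by omega⟩
  rcases ha with ha | ha
  · rw [ha]
    exact ⟨3 * a ^ 2 + 2 * a, by ring⟩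
  · rw [ha]
    exact ⟨3 * a ^ 2 + 4 * a + 1, by ring⟩

private theorem tmv_congr {f : ℕ} (h : f.Coprime 3) (i j : ℕ) :
    ((3 : ℕ) : OO n t) ∣ tmv n t f i j - (⟨i, j⟩ : OO n t) := by
  rw [nat_dvd_iff]
  obtain ⟨c, hc⟩ := f_sq h
  have hf : (f : ℤ) ^ 2 = 1 + 3 * c := by linarith
  constructor
  · rw [QuadraticAlgebra.re_sub]
    change ((3 : ℕ) : ℤ) ∣ (1 + (f : ℤ) ^ 2 * ((i : ℤ) - 1)) - (i : ℤ)
    rw [hf]
    exact ⟨c * (i - 1), by push_cast; ring⟩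
  · rw [QuadraticAlgebra.im_sub]
    change ((3 : ℕ) : ℤ) ∣ ((f : ℤ) ^ 2 * (j : ℤ)) - (j : ℤ)
    rw [hf]
    exact ⟨c * j, by push_cast; ring⟩

private theorem cop3_iff (v : OO n t) : Cop v 3 ↔ ¬ (3 : ℤ) ∣ Nm v := by
  unfold Cop
  rw [isCoprime_comm, Nat.cast_ofNat]
  exact Int.prime_three.coprime_iff_not_dvd

private theorem nm_aux (n t i j : ℕ) (h1 : (4 * n - t ^ 2) % 3 = 1) (h2 : (t = 1 ∧ 0 < n) ∨ (t = 0 ∧ 0 < n))
    (hi : i < 3) (hj : j < 3) :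
    ¬ (3 : ℤ) ∣ (i : ℤ) ^ 2 + t * i * j + n * (j : ℤ) ^ 2 ↔ ¬ (i = 0 ∧ j = 0) := by
  rcases h2 with ⟨rfl, hn⟩ | ⟨rfl, hn⟩
  · obtain ⟨m, rfl⟩ : ∃ m : ℕ, n = 3 * m + 2 := ⟨n / 3, by omega⟩
    push_cast
    interval_cases i <;> interval_cases j <;> norm_num <;> omega
  · obtain ⟨m, rfl⟩ : ∃ m : ℕ, n = 3 * m + 1 := ⟨n / 3, by omega⟩
    push_cast
    interval_cases i <;> interval_cases j <;> norm_num <;> omega

private theorem cop_ij [Ine3 n t] (i j : ℕ) (hi : i < 3) (hj : j < 3) :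
    Cop (⟨i, j⟩ : OO n t) 3 ↔ ¬ (i = 0 ∧ j = 0) := by
  rw [cop3_iff]
  have h1 : Dk n t % 3 = 1 := Ine3.one
  have h2 := (SqN.out (n := n) (t := t))
  refine nm_aux n t i j h1 ?_ hi hj
  rcases h2 with ⟨ht, hn, -⟩ | ⟨ht, hn, -, -⟩
  · exact Or.inl ⟨ht, hn⟩
  · exact Or.inr ⟨ht, hn⟩

private theorem cop_tmv [Ine3 n t] {f : ℕ} (h : f.Coprime 3) (i j : ℕ) :
    Cop (tmv n t f i j) 3 ↔ Cop (⟨i, j⟩ : OO n t) 3 := by
  constructor
  · intro h1
    exact cop_congr (tmv_congr h i j) h1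
  · intro h1
    refine cop_congr (a := (⟨i, j⟩ : OO n t)) ?_ h1
    rw [← neg_sub]
    exact (dvd_neg).2 (tmv_congr h i j)

private theorem tmv_inj {f : ℕ} (h : f.Coprime 3) {i j i' j' : ℕ} (hi : i < 3) (hj : j < 3) (hi' : i' < 3)
    (hj' : j' < 3) (hd : ((3 : ℕ) : OO n t) ∣ tmv n t f i j - tmv n t f i' j') : i = i' ∧ j = j' := by
  have h1 := tmv_congr (n := n) (t := t) h i j
  have h2 := tmv_congr (n := n) (t := t) h i' j'
  have h3 : ((3 : ℕ) : OO n t) ∣ (⟨i, j⟩ : OO n t) - ⟨i', j'⟩ := by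
    have e : (⟨i, j⟩ : OO n t) - ⟨i', j'⟩ = (tmv n t f i j - tmv n t f i' j') -
        (tmv n t f i j - ⟨i, j⟩) + (tmv n t f i' j' - ⟨i', j'⟩) := by ring
    rw [e]
    exact dvd_add (dvd_sub hd h1) h2
  obtain ⟨h4, h5⟩ := (nat_dvd_iff 3 _).1 h3
  rw [QuadraticAlgebra.re_sub] at h4
  rw [QuadraticAlgebra.im_sub] at h5
  change ((3 : ℕ) : ℤ) ∣ (i : ℤ) - i' at h4
  change ((3 : ℕ) : ℤ) ∣ (j : ℤ) - j' at h5
  constructor <;> omega

private theorem mem_tm {f : ℕ} {v : OO n t} (h : v ∈ tm n t f) :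
    Cop v 3 ∧ ∃ i j : ℕ, i < 3 ∧ j < 3 ∧ tmv n t f i j = v := by
  classical
  unfold tm at h
  rw [Finset.mem_filter, Finset.mem_image] at h
  obtain ⟨⟨⟨i, j⟩, hp, hv⟩, hc⟩ := h
  rw [Finset.mem_product, Finset.mem_range, Finset.mem_range] at hp
  exact ⟨hc, i, j, hp.1, hp.2, hv⟩

private theorem tm_mem {f : ℕ} {i j : ℕ} (hi : i < 3) (hj : j < 3) (h : Cop (tmv n t f i j) 3) :
    tmv n t f i j ∈ tm n t f := by
  classical
  unfold tm
  rw [Finset.mem_filter, Finset.mem_image]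
  refine ⟨⟨(i, j), ?_, rfl⟩, h⟩
  rw [Finset.mem_product, Finset.mem_range, Finset.mem_range]
  exact ⟨hi, hj⟩

private theorem isG [Ine3 n t] {f : ℕ} (hf : Fok f) : IsG f 1 (tm n t f) where
  mem := by
    intro α hα
    obtain ⟨hc, i, j, -, -, rfl⟩ := mem_tm hα
    refine ⟨?_, hc⟩
    rw [nat_dvd_iff]
    constructor
    · rw [QuadraticAlgebra.re_sub, re_one]
      change (f : ℤ) ∣ (1 + (f : ℤ) ^ 2 * ((i : ℤ) - 1)) - 1
      exact ⟨f * (i - 1), by ring⟩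
    · rw [QuadraticAlgebra.im_sub, im_one]
      change (f : ℤ) ∣ ((f : ℤ) ^ 2 * (j : ℤ)) - 0
      exact ⟨f * j, by ring⟩
  ex := by
    intro v hv hc
    obtain ⟨i, hi3, hi⟩ : ∃ i : ℕ, i < 3 ∧ (3 : ℤ) ∣ v.re - i := ⟨(v.re % 3).toNat, by omega, by omega⟩
    obtain ⟨j, hj3, hj⟩ : ∃ j : ℕ, j < 3 ∧ (3 : ℤ) ∣ v.im - j := ⟨(v.im % 3).toNat, by omega, by omega⟩
    obtain ⟨c, hc3⟩ := f_sq hf.cop
    have hfc : (f : ℤ) ^ 2 = 1 + 3 * c := by linarith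
    obtain ⟨a, ha⟩ := hi
    obtain ⟨b, hb⟩ := hj
    have h3 : ((3 : ℕ) : OO n t) ∣ v - tmv n t f i j := by
      rw [nat_dvd_iff]
      constructor
      · rw [QuadraticAlgebra.re_sub]
        change ((3 : ℕ) : ℤ) ∣ v.re - (1 + (f : ℤ) ^ 2 * ((i : ℤ) - 1))
        rw [hfc]
        refine ⟨a - c * (i - 1), ?_⟩
        push_cast
        linear_combination ha
      · rw [QuadraticAlgebra.im_sub]
        change ((3 : ℕ) : ℤ) ∣ v.im - (f : ℤ) ^ 2 * (j : ℤ)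
        rw [hfc]
        refine ⟨b - c * j, ?_⟩
        push_cast
        linear_combination hb
    refine ⟨tmv n t f i j, tm_mem hi3 hj3 (cop_congr h3 hc), ?_⟩
    obtain ⟨g1, g2⟩ := (nat_dvd_iff 3 _).1 h3
    obtain ⟨g3, g4⟩ := (nat_dvd_iff f _).1 hv
    rw [QuadraticAlgebra.re_sub, re_one] at g3
    rw [QuadraticAlgebra.im_sub, im_one] at g4
    obtain ⟨x, hx⟩ := g3
    obtain ⟨y, hy⟩ := g4
    have hcop : IsCoprime (f : ℤ) ((3 : ℕ) : ℤ) := Nat.isCoprime_iff_coprime.2 hf.cop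
    rw [nat_dvd_iff, pow_one, Nat.cast_mul]
    constructor
    · refine hcop.mul_dvd ?_ g1
      rw [QuadraticAlgebra.re_sub]
      change (f : ℤ) ∣ v.re - (1 + (f : ℤ) ^ 2 * ((i : ℤ) - 1))
      exact ⟨x - f * (i - 1), by linear_combination hx⟩
    · refine hcop.mul_dvd ?_ g2
      rw [QuadraticAlgebra.im_sub]
      change (f : ℤ) ∣ v.im - (f : ℤ) ^ 2 * (j : ℤ)
      exact ⟨y - f * j, by linear_combination hy⟩
  uni := by
    intro α hα α' hα' h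
    obtain ⟨-, i, j, hi, hj, rfl⟩ := mem_tm hα
    obtain ⟨-, i', j', hi', hj', rfl⟩ := mem_tm hα'
    have h3 : ((3 : ℕ) : OO n t) ∣ tmv n t f i j - tmv n t f i' j' := by
      refine dvd_trans ?_ h
      rw [pow_one, Nat.cast_mul]
      exact dvd_mul_left _ _
    obtain ⟨rfl, rfl⟩ := tmv_inj hf.cop hi hj hi' hj' h3
    rfl

theorem tTm (h0 : S_T0) : S_Tm := by
  classical
  intro n t _ f hf
  refine ⟨isG hf, ?_, ?_⟩
  · intro i j hi hj
    rw [cop_tmv hf.cop, cop_ij i j hi hj]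
  · intro P k g hP hk
    have hz0 : ∀ v : OO n t, ¬ Cop v 3 → zt P v = 0 := fun v hv => (h0.2 n t P hP v 1).1 hv
    have hz : ∀ i j : ℕ, zt P (tmv n t f i j) = zt P (⟨i, j⟩ : OO n t) := by
      intro i j
      by_cases hc : Cop (⟨i, j⟩ : OO n t) 3
      · have hc' := (cop_tmv hf.cop i j).2 hc
        obtain ⟨-, -, -, h4, -⟩ := (h0.2 n t P hP (tmv n t f i j) (⟨i, j⟩ : OO n t)).2 hc' hc
        have h5 := tmv_congr (n := n) (t := t) hf.cop i j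
        rw [Nat.cast_ofNat] at h5
        exact h4.1 h5
      · rw [hz0 _ hc, hz0 _ (fun h => hc ((cop_tmv hf.cop i j).1 h))]
    unfold tm
    rw [Finset.sum_filter_of_ne, Finset.sum_image, Finset.sum_product]
    · refine Finset.sum_congr rfl fun i _ => Finset.sum_congr rfl fun j _ => ?_
      rw [hz i j]
    · rintro ⟨i, j⟩ hp ⟨i', j'⟩ hp' hh
      rw [Finset.mem_coe, Finset.mem_product, Finset.mem_range, Finset.mem_range] at hp hp'
      have hd : ((3 : ℕ) : OO n t) ∣ tmv n t f i j - tmv n t f i' j' := by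
        have e : tmv n t f i j = tmv n t f i' j' := hh
        rw [e, sub_self]
        exact dvd_zero _
      obtain ⟨e1, e2⟩ := tmv_inj hf.cop hp.1 hp.2 hp'.1 hp'.2 hd
      exact Prod.ext e1 e2
    · intro v _ hne
      by_contra hc
      apply hne
      rw [hz0 v hc, zero_pow (by omega), zero_mul]

end Pool.Agent.DM.C
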