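import Pool.Agent.Lib.DM.C.Spec9
import Pool.Agent.Lib.DN.CV.Bas

/-!
# Part C for DM: module `Tss` (systems of representatives and the structure `Ts`)
-/

set_option autoImplicit false

open scoped Pointwise Topology nonZeroDivisors
open Filter

noncomputable section

namespace Pool.Agent.DM.C

open Pool.Agent.MuZ Pool.Agent.FW NumberField IsDedekindDomain Pool.Agent.DM
open Pool.Agent.DI (io ofC io_inj exists_io io_ofC ofC_io VP MP UP TP ex)
open Pool.Agent.DN
open Pool.Agent.DN.C (rsum PerO)
open Pool.Agent.DS.C (ftp Ts Hs Pf h0 T0)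

theorem tTss : S_Tss := by
  classical
  intro n t _ f A g hf hcop hA hper hzero
  refine ⟨hA.mem, hper, fun v => ?_⟩
  by_cases hv : Cop v 3
  · obtain ⟨u, -, hu1, hu2⟩ := (aO11 n t).2.2.2.2.2 f 3 1 v hf (by norm_num) hcop
    have hu3 : Cop u 3 := by
      refine cop_congr (a := v) ?_ hv
      have h1 := dvd_neg.2 hu2
      rwa [neg_sub] at h1
    obtain ⟨α, hα, h1⟩ := hA.ex u hu1 hu3
    rw [pow_one, Nat.cast_mul] at h1
    have h2 : ((3 : ℕ) : OO n t) ∣ v - α := by
      have h3 := dvd_sub (dvd_of_mul_left_dvd h1) hu2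
      have e : v - α = (u - α) - (u - v) := by ring
      rw [e]
      exact h3
    rw [Finset.sum_eq_single α]
    · rw [if_pos h2]
      obtain ⟨w, hw⟩ := h2
      have e : v = α + ((3 : ℕ) : OO n t) * w := by rw [← hw]; ring
      rw [e]
      exact (hper α w).symm
    · intro β hβ hne
      refine if_neg fun h3 => hne ?_
      refine hA.uni β hβ α hα ?_
      rw [pow_one]
      refine CV_cast_mul hcop ?_ ?_
      · have h4 := dvd_sub (hA.mem β hβ).1 (hA.mem α hα).1
        rwa [sub_sub_sub_cancel_right] at h4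
      · have h4 := dvd_sub h2 h3
        rwa [sub_sub_sub_cancel_left] at h4
    · intro h3
      exact absurd hα h3
  · rw [hzero v hv]
    refine Finset.sum_eq_zero fun α hα => if_neg fun h3 => hv ?_
    refine cop_congr (a := α) ?_ (hA.mem α hα).2
    have h1 := dvd_neg.2 h3
    rwa [neg_sub] at h1

end Pool.Agent.DM.C
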