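import Pool.Agent.Lib.DM.C.Spec9

/-!
# Part C for DM (inert case): the hidden symmetry of the values
-/

set_option autoImplicit false

open scoped Pointwise Topology nonZeroDivisors
open Filter

noncomputable section

namespace Pool.Agent.DM.C

open Pool.Agent.MuZ Pool.Agent.FW NumberField IsDedekindDomain Pool.Agent.DM
open Pool.Agent.DI (io ofC io_inj exists_io io_ofC ofC_io VP MP UP TP ex)
open Pool.Agent.DN
open Pool.Agent.DN.C (rsum PerO)
open Pool.Agent.DS.C (ftp Ts Hs Pf h0 T0)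

private theorem pri_dvd {n t : ℕ} {b : Ideal (OO n t)} {N M : ℕ} (h : PrI b N) (hd : M ∣ N) :
    PrI b M := by
  unfold PrI at h ⊢
  refine top_le_iff.1 (le_trans (le_of_eq h.symm) ?_)
  exact sup_le_sup_left (Ideal.span_singleton_le_span_singleton.2 (Nat.cast_dvd_cast hd)) b

private theorem sq3 (x : ℤ) (h : IsCoprime x ((3 : ℕ) : ℤ)) : ((3 : ℕ) : ℤ) ∣ x ^ 2 - 1 := by
  have h1 : ¬ (3 : ℤ) ∣ x := by
    intro hd
    have h2 : IsUnit ((3 : ℕ) : ℤ) := h.isUnit_of_dvd' hd dvd_rfl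
    rw [Int.isUnit_iff] at h2
    omega
  have h2 : x % 3 = 1 ∨ x % 3 = 2 := by omega
  rcases h2 with h2 | h2
  · obtain ⟨y, hy⟩ : ∃ y : ℤ, x = 3 * y + 1 := ⟨x / 3, by omega⟩
    exact ⟨3 * y ^ 2 + 2 * y, by rw [hy]; push_cast; ring⟩
  · obtain ⟨y, hy⟩ : ∃ y : ℤ, x = 3 * y + 2 := ⟨x / 3, by omega⟩
    exact ⟨3 * y ^ 2 + 4 * y + 1, by rw [hy]; push_cast; ring⟩

/-- **The hidden symmetry of the values.** -/
theorem tVsy (hU : DS.C.S_Uvl) (hT : S_Tm) (hS : S_Tss) : S_Vsy := by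
  intro n t _ f M c m b g g' hm hb hM hg hg' hz hz' hloc r hr
  have hf : Fok f := hm.toFok
  have hG : IsG f 1 (tm n t f) := (hT n t f hf).1
  have hTs : Ts 3 f (tm n t f) g := hS n t f _ g hf.pos hf.cop hG hg hz
  have hTs' : Ts 3 f (tm n t f) g' := hS n t f _ g' hf.pos hf.cop hG hg' hz'
  have hPf : Pf 3 f m b := ⟨by norm_num, hf.pos, hf.cop, sq3, hm.ne, hb.ne,
    pri_dvd hm.prm (dvd_mul_right 3 f), pri_dvd hb.prm (dvd_mul_right 3 f)⟩
  have hH : Hs 3 3 3 3 3 f M c (Dk n t) 1 1 m b g g' :=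
    ⟨hPf, hPf, by norm_num, by norm_num, by norm_num, rfl, by ring, by ring, hM, hg, hg',
      fun u => by rw [hloc u]⟩
  have h := hU n t 3 3 3 f M c (Dk n t) m b (tm n t f) g g' hH hTs hTs' hm.g hb.g r hr
  have h3 : ((3 : ℕ) : ℚ) = 3 := by norm_num
  rw [h3] at h
  exact h

end Pool.Agent.DM.C
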