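import Pool.Agent.Lib.DM.C.Spec9

/-!
# Part C for DM (inert case), module Ztx: the properties of `X = io ∘ zt P` (helper2)
-/

set_option autoImplicit false

open scoped Pointwise Topology nonZeroDivisors
open Filter

noncomputable section

namespace Pool.Agent.DM.C

open Pool.Agent.MuZ Pool.Agent.FW NumberField IsDedekindDomain Pool.Agent.DM
open Pool.Agent.DI (io ofC io_inj exists_io io_ofC ofC_io VP MP UP TP ex)
open Pool.Agent.DN
open Pool.Agent.DN.C (rsum PerO)
open Pool.Agent.DS.C (ftp Ts Hs Pf h0 T0)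

/-- `Nm v` congruent to `1` or `-1` modulo `3`: `v` is prime to `3`. -/
private theorem Ztx_cop {n t : ℕ} {v : OO n t} (h : (3 : ℤ) ∣ Nm v - 1 ∨ (3 : ℤ) ∣ Nm v + 1) :
    Cop v 3 := by
  unfold Cop
  rcases h with ⟨c, hc⟩ | ⟨c, hc⟩
  · exact ⟨1, -c, by push_cast; linear_combination hc⟩
  · exact ⟨-1, c, by push_cast; linear_combination -hc⟩

/-- Factors. -/
private theorem Ztx_mul {n t : ℕ} {v u : OO n t} (h : Cop (v * u) 3) : Cop v 3 ∧ Cop u 3 := by
  unfold Cop at *
  rw [Nm_mul] at h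
  exact ⟨h.of_mul_left_left, h.of_mul_left_right⟩

theorem tZtx (h0 : S_T0) (hF : S_Frb) : S_Ztx := by
  intro n t _ P hP
  obtain ⟨-, hz⟩ := h0
  obtain ⟨-, hC, -⟩ := hF n t
  have c1 : Cop (1 : OO n t) 3 := cop_one 3
  have cm : Cop (-1 : OO n t) 3 := cop_neg c1
  have h1 : zt P (1 : OO n t) = 1 := by
    obtain ⟨h8, -, hm, -⟩ := (hz n t P hP 1 1).2 c1 c1
    rw [mul_one] at hm
    have hne : zt P (1 : OO n t) ≠ 0 := by
      intro h
      rw [h] at h8
      norm_num at h8
    exact (mul_left_cancel₀ hne (by rw [mul_one]; exact hm)).symm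
  have hm1 : zt P (-1 : OO n t) = -1 := by
    obtain ⟨-, -, hm, -⟩ := (hz n t P hP (-1) (-1)).2 cm cm
    obtain ⟨-, -, -, hd, -⟩ := (hz n t P hP (-1) 1).2 cm c1
    rw [neg_mul_neg, one_mul, h1] at hm
    have hne : ¬ zt P (-1 : OO n t) = 1 := by
      intro h
      have h2 := hd.2 (h.trans h1.symm)
      have h3 : (3 : OO n t) ∣ 1 := by
        obtain ⟨c, hc⟩ := h2
        exact ⟨c + 1, by linear_combination hc⟩
      exact (hC 1).1 c1 h3
    have h4 : (zt P (-1 : OO n t) - 1) * (zt P (-1 : OO n t) + 1) = 0 := by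
      linear_combination -hm
    rcases mul_eq_zero.1 h4 with h5 | h5
    · exact absurd (sub_eq_zero.1 h5) hne
    · exact eq_neg_of_add_eq_zero_left h5
  refine ⟨?_, ?_, ?_, ?_, ?_, ?_, ?_⟩
  · intro v hv
    show io (zt P v) = 0
    rw [(hz n t P hP v v).1 hv, map_zero]
  · intro v u
    show io (zt P (v * u)) = io (zt P v) * io (zt P u)
    have key : zt P (v * u) = zt P v * zt P u := by
      by_cases hv : Cop v 3
      · by_cases hu : Cop u 3
        · exact ((hz n t P hP v u).2 hv hu).2.2.1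
        · rw [(hz n t P hP u u).1 hu, mul_zero]
          exact (hz n t P hP (v * u) u).1 fun h => hu (Ztx_mul h).2
      · rw [(hz n t P hP v v).1 hv, zero_mul]
        exact (hz n t P hP (v * u) u).1 fun h => hv (Ztx_mul h).1
    rw [key, map_mul]
  · show io (zt P (1 : OO n t)) = 1
    rw [h1, map_one]
  · show io (zt P (-1 : OO n t)) = -1
    rw [hm1, map_neg, map_one]
  · intro v u
    have key : zt P (v + ((3 : ℕ) : OO n t) * u) = zt P v := by
      by_cases hv : Cop v 3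
      · have hu : Cop (v + ((3 : ℕ) : OO n t) * u) 3 := cop_congr (a := v) ⟨-u, by ring⟩ hv
        obtain ⟨-, -, -, hd, -⟩ := (hz n t P hP (v + ((3 : ℕ) : OO n t) * u) v).2 hu hv
        refine hd.1 ⟨u, ?_⟩
        rw [Nat.cast_ofNat]
        ring
      · have hu : ¬ Cop (v + ((3 : ℕ) : OO n t) * u) 3 := fun h =>
          hv (cop_congr (a := v + ((3 : ℕ) : OO n t) * u) ⟨u, by ring⟩ h)
        rw [(hz n t P hP v v).1 hv, (hz n t P hP (v + ((3 : ℕ) : OO n t) * u) v).1 hu]
    exact congrArg io key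
  · intro v hv
    show io (zt P v) ^ 4 = 1
    have hc : Cop v 3 := Ztx_cop (Or.inl hv)
    obtain ⟨-, -, -, -, h4, -⟩ := (hz n t P hP v v).2 hc hc
    rw [← map_pow, h4.2 hv, map_one]
  · intro v hv
    show io (zt P v) ^ 4 = -1
    have hc : Cop v 3 := Ztx_cop (Or.inr hv)
    obtain ⟨-, -, -, -, -, h4, -⟩ := (hz n t P hP v v).2 hc hc
    rw [← map_pow, h4.2 hv, map_neg, map_one]

end Pool.Agent.DM.C
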