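import Pool.Agent.Lib.DS.C.All9
import Pool.Agent.Lib.DM.C.C17
import Pool.Agent.Lib.DM.C.Frb
import Pool.Agent.Lib.DM.C.Ztx
import Pool.Agent.Lib.DM.C.Chx
import Pool.Agent.Lib.DM.C.Kh
import Pool.Agent.Lib.DM.C.Tm
import Pool.Agent.Lib.DM.C.Tss
import Pool.Agent.Lib.DM.C.Gss
import Pool.Agent.Lib.DM.C.Lcx
import Pool.Agent.Lib.DM.C.Vsy
import Pool.Agent.Lib.DM.C.Rep
import Pool.Agent.Lib.DM.C.C9

/-!
# Part C for DM (inert case): assembly (author helper33)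

`aC1`, `aC2`, `aC3`, `aC4`, `aC6`, `aC7` from `DS.S_R1`; `akH`, `aTm` from `S_T0`; `aC9` from both.
-/

set_option autoImplicit false

noncomputable section

namespace Pool.Agent.DM.C

open Pool.Agent.DN Pool.Agent.DM

theorem aFrb : S_Frb := tFrb
theorem aZtx (h0 : S_T0) : S_Ztx := tZtx h0 aFrb
theorem aChx : S_Chx := tChx aFrb
theorem aTss : S_Tss := tTss
theorem aGss : S_Gss := tGss aFrb aChx
theorem aLcx : S_Lcx := tLcx aGss aChx aFrb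

end Pool.Agent.DM.C

namespace Pool.Agent.DM

open Pool.Agent.DN Pool.Agent.DM.C

theorem aC1 (hR : DS.S_R1) : S_C1 := tC1 hR
theorem aC2 (hR : DS.S_R1) : S_C2 := tC2 hR
theorem aC3 (hR : DS.S_R1) : S_C3 := tC3 hR
theorem aC4 (hR : DS.S_R1) : S_C4 := tC4 hR
theorem aC6 (hR : DS.S_R1) : S_C6 := tC6 hR
theorem aC7 (hR : DS.S_R1) : S_C7 := tC7 hR
theorem akH (h0 : S_T0) : S_kH := tkH h0 (aZtx h0) aChx aFrb
theorem aTm (h0 : S_T0) : S_Tm := tTm h0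
theorem aC9 (h0 : S_T0) (hR : DS.S_R1) : S_C9 :=
  tC9 hR (tRep hR DS.C.aLh (aTm h0)) (tVsy DS.C.aUvl (aTm h0) aTss) aLcx (aZtx h0) aChx (aTm h0)

end Pool.Agent.DM
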