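import Pool.Agent.Lib.DM.C.Fra
import Pool.Agent.Lib.DN.CV.Bas

/-!
# Part C for the second framing: class functions, periods, complex conjugation (author helper33)
-/

set_option autoImplicit false

open scoped Pointwise Topology nonZeroDivisors
open Filter

noncomputable section

namespace Pool.Agent.DM

open Pool.Agent.MuZ Pool.Agent.FW NumberField IsDedekindDomain
open Pool.Agent.DI (io ofC io_inj exists_io io_ofC ofC_io VP MP UP TP ex)
open Pool.Agent.DN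

variable {n t : ℕ}

/-- The period `1/l` of the limits. -/
theorem hM_per [SqN n t] (hR : DS.S_R1) {F : ℕ} {m b : Ideal (OO n t)} (hm : DS.FMg F m)
    (hb : DS.FBg F b) {l : ℕ} (hl : 0 < l) (hd : DS.Dvl t F l) :
    (∀ z : ℂ, 0 < z.im → ThM F m b (z + 1 / l) = ex (NI (m * b) / l) * ThM F m b z) ∧
    ∀ r : ℚ, hM F m b (r + 1 / l) = ex (NI (m * b) / l) * hM F m b r := by
  obtain ⟨f0, g0, s0, s1, t1, l1, e1, k1⟩ := fra hR hm hb
  have h3 := ((DS.aC6 hR n t F m b hm hb).2.2.1 l hl hd).1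
  have h4 : ∀ z : ℂ, 0 < z.im → ThM F m b (z + 1 / l) = ex (NI (m * b) / l) * ThM F m b z := by
    intro z hz
    rw [t1, t1, h3 z hz, mul_assoc]
  refine ⟨h4, fun r => ?_⟩
  have v1 := (gC3v hR n t F m b hm hb).1 r
  have v2 := (gC3v hR n t F m b hm hb).1 (r + 1 / l)
  refine tendsto_nhds_unique v2 ?_
  refine (v1.const_mul (ex (NI (m * b) / l))).congr' ?_
  filter_upwards [self_mem_nhdsWithin] with y hy
  have hy' : (0 : ℝ) < y := hy
  have hz : (0 : ℝ) < ((r : ℂ) + y * Complex.I).im := by simpa using hy'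
  rw [← h4 _ hz]
  congr 1
  push_cast
  ring

/-- The period `1/l` of the algebraic numbers, for all `r`. -/
theorem etaM_per [SqN n t] (hR : DS.S_R1) {F : ℕ} {m b : Ideal (OO n t)} (hm : DS.FMg F m)
    (hb : DS.FBg F b) {l : ℕ} (hl : 0 < l) (hd : DS.Dvl t F l) (r : ℚ) :
    etaM F m b (r + 1 / l) = zet l ^ NI (m * b) * etaM F m b r := by
  unfold etaM
  rw [(hM_per hR hm hb hl hd).2 r]
  have e : ex (NI (m * b) / l) = io (zet l ^ NI (m * b)) := by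
    rw [map_pow, CV_io_zet hl]
    unfold ex
    rw [← Complex.exp_nat_mul]
    congr 1
    ring
  rw [e, ofC_io_mul]

/-- The same, first framing. -/
theorem etaM_perN [SqN n t] (hR : DS.S_R1) {F : ℕ} {m b : Ideal (OO n t)} (hm : DS.FMg F m)
    (hb : DS.FBg F b) {l : ℕ} (hl : 0 < l) (hd : DS.Dvl t F l) (r : ℚ) :
    DN.etaM F m b (r + 1 / l) = zet l ^ NI (m * b) * DN.etaM F m b r := by
  obtain ⟨f0, g0, s0, s1, t1, l1, e1, k1⟩ := fra hR hm hb
  have h1 := etaM_per hR hm hb hl hd r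
  rw [e1, e1, ← mul_div_assoc] at h1
  exact (div_left_inj' s0).1 h1

/-- **C6.** -/
theorem gC6 (hR : DS.S_R1) (n t : ℕ) [SqN n t] (F : ℕ) (h4 : 4 ∣ F) (m b : Ideal (OO n t))
    (hm : DS.FMg F m) (hb : DS.FBg F b) :
    (∀ b' : Ideal (OO n t), DS.FBg F b' → Ray F b b' →
      (∀ z : ℂ, ThM F m b z = ThM F m b' z) ∧ ∀ r : ℚ, etaM F m b r = etaM F m b' r) ∧
    (∀ r : ℚ, etaM F m b (r + 1) = etaM F m b r ∧ etaM F m b (r + 1 / 2) = -etaM F m b r) ∧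
    (∀ l : ℕ, 0 < l → DS.Dvl t F l →
      (∀ z : ℂ, 0 < z.im → ThM F m b (z + 1 / l) = ex (NI (m * b) / l) * ThM F m b z) ∧
      ∀ r : ℚ, etaM F m b (r + 1 / l) = zet l ^ NI (m * b) * etaM F m b r) ∧
    (∀ z : ℂ, (starRingEnd ℂ) (ThM F m b z) = ThM F (cjI m) (cjI b) (-(starRingEnd ℂ) z)) ∧
    ∀ c : Gal(Om/ℚ), (∀ x : Om, io (c x) = (starRingEnd ℂ) (io x)) → ∀ r : ℚ,
      r.den.Coprime (NI m) → c (etaM F m b r) = etaM F (cjI m) (cjI b) (-r) := by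
  obtain ⟨f0, g0, s0, s1, t1, l1, e1, k1⟩ := fra hR hm hb
  have hm' := cj_fm hm
  have hb' := cj_fb hb
  obtain ⟨f0', g0', s0', s1', t1', l1', e1', k1'⟩ := fra hR hm' hb'
  obtain ⟨h1, h2, h3, h5, h6⟩ := DS.aC6 hR n t F m b hm hb
  refine ⟨fun b₁ hb₁ hr => ?_, fun r => ?_, fun l hl hd => ⟨(hM_per hR hm hb hl hd).1,
    etaM_per hR hm hb hl hd⟩, fun z => ?_, fun c hc r hr => ?_⟩
  · obtain ⟨f2, g2, s2, q2, t2, l2, e2, -⟩ := fra hR hm hb₁
    have h := sO_ray h4 hm hb hb₁ hr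
    have hs : sO b = sO b₁ := io_inj (by rw [s1, q2, h])
    have h' : DN.fr b / fr b = DN.fr b₁ / fr b₁ := by
      rw [← inv_div, h, inv_div]
    obtain ⟨k2, k3⟩ := h1 b₁ hb₁ hr
    exact ⟨fun z => by rw [t1, t2, k2, h'], fun r => by rw [e1, e2, k3, hs]⟩
  · obtain ⟨k2, k3⟩ := h2 r
    exact ⟨by rw [e1, e1, k2], by rw [e1, e1, k3, neg_div]⟩
  · obtain ⟨c1, c2⟩ := sO_cj (g30 hm hb)
    rw [t1, t1', map_mul, map_div₀, h5, c1, c2]
  · obtain ⟨c1, c2⟩ := sO_cj (g30 hm hb)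
    rw [e1, e1', map_div₀, h6 c hc r hr]
    congr 1
    apply io_inj
    rw [hc, s1, s1', map_div₀, c1, c2]

end Pool.Agent.DM
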