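import Pool.Agent.Lib.DM.E.R1
import Pool.Agent.Lib.DM.IfaceC
import Pool.Agent.Lib.DS.C.All

/-!
# Part C for the second framing: all imaginary quadratic fields, general modulus (author helper33)

`DM.ThM F m b = DN.ThM F m b * (DN.fr b/fr b)`, `DM.etaM F m b r = DN.etaM F m b r/sO b` for ALL `r`. The statements of `DS/IfaceC.lean` for the framing by
the point `1/4`, with `[SqN n t]`, the modulus `F` (`DS.FMg`: `30 ∣ F`) and the level `N` (`DS.IsLg`).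
-/

set_option autoImplicit false

open scoped Pointwise Topology nonZeroDivisors
open Filter

noncomputable section

namespace Pool.Agent.DM

open Pool.Agent.MuZ Pool.Agent.FW NumberField IsDedekindDomain
open Pool.Agent.DI (io ofC io_inj exists_io io_ofC ofC_io VP MP UP TP ex)
open Pool.Agent.DN

variable {n t : ℕ}

/-- `ofC` and the multiplication by an algebraic number. -/
theorem ofC_mul_io (x : ℂ) (y : Om) : ofC (x * io y) = ofC x * y := by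
  by_cases hy : y = 0
  · rw [hy, map_zero, mul_zero, mul_zero, ← map_zero io, ofC_io]
  by_cases h : ∃ u : Om, io u = x
  · obtain ⟨u, rfl⟩ := h
    rw [← map_mul, ofC_io, ofC_io]
  · have hy' : io y ≠ 0 := by
      intro h0
      rw [← map_zero io] at h0
      exact hy (io_inj h0)
    have h' : ¬ ∃ u : Om, io u = x * io y := by
      rintro ⟨u, hu⟩
      refine h ⟨u / y, ?_⟩
      rw [map_div₀, hu, mul_div_assoc, div_self hy', mul_one]
    unfold ofC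
    rw [dif_neg h, dif_neg h', zero_mul]

theorem ofC_io_mul (y : Om) (x : ℂ) : ofC (io y * x) = y * ofC x := by
  rw [mul_comm, ofC_mul_io, mul_comm]

theorem g30 [SqN n t] {F : ℕ} {m b : Ideal (OO n t)} (hm : DS.FMg F m) (hb : DS.FBg F b) :
    G30 b := by
  have h : 2 * 15 ∣ F := Nat.Coprime.mul_dvd_of_dvd_of_dvd (by norm_num) hm.two hm.dvd
  exact ⟨hb.ne, Eb.pri_dvd hb.cop h⟩

/-- **The two framings.** -/
theorem fra [SqN n t] (hR : DS.S_R1) {F : ℕ} {m b : Ideal (OO n t)} (hm : DS.FMg F m)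
    (hb : DS.FBg F b) :
    DN.fr b ≠ 0 ∧ fr b ≠ 0 ∧ sO b ≠ 0 ∧ io (sO b) = fr b / DN.fr b ∧
    (∀ z : ℂ, ThM F m b z = DN.ThM F m b z * (DN.fr b / fr b)) ∧
    (∀ r : ℚ, hM F m b r = DN.hM F m b r * (DN.fr b / fr b)) ∧
    (∀ r : ℚ, etaM F m b r = DN.etaM F m b r / sO b) ∧
    ∀ z : ℂ, gO m b z = DN.gO m b z / sO b := by
  have h30 := g30 hm hb
  obtain ⟨⟨-, s1, -⟩, s0, -⟩ := tRC hR n t b h30
  obtain ⟨f0, g0, -⟩ := cv h30
  have hth : ∀ z : ℂ, ThM F m b z = DN.ThM F m b z * (DN.fr b / fr b) := by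
    intro z
    unfold ThM DN.ThM
    field_simp
  have hhM : ∀ r : ℚ, hM F m b r = DN.hM F m b r * (DN.fr b / fr b) := by
    intro r
    have h1 := (DS.aC3v n t F m b hm hb).1 r
    have h2 := h1.mul_const (DN.fr b / fr b)
    refine Tendsto.limUnder_eq (h2.congr fun y => ?_)
    rw [hth]
  have hs : DN.fr b / fr b = io (sO b)⁻¹ := by
    rw [map_inv₀, s1, inv_div]
  refine ⟨f0, g0, s0, s1, hth, hhM, fun r => ?_, fun z => ?_⟩
  · unfold etaM DN.etaM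
    rw [hhM, hs, ofC_mul_io, div_eq_mul_inv]
  · unfold gO DN.gO
    have e : gC m b z = DN.gC m b z * (DN.fr b / fr b) := by
      unfold gC DN.gC
      field_simp
    rw [e, hs, ofC_mul_io, div_eq_mul_inv]

theorem rO_fra [SqN n t] (hR : DS.S_R1) {F : ℕ} {m b b' : Ideal (OO n t)} (hm : DS.FMg F m)
    (hb : DS.FBg F b) (hb' : DS.FBg F b') : rO b b' = DN.rO b b' * sO b' / sO b :=
  (tCv hR n t b (g30 hm hb)).2.2.2.2.2.2.1 b' (g30 hm hb')

/-- `sO` depends only on the ray class (`4 ∣ F`). -/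
theorem sO_ray [SqN n t] {F : ℕ} (h4 : 4 ∣ F) {m b b' : Ideal (OO n t)}
    (hm : DS.FMg F m) (hb : DS.FBg F b) (hb' : DS.FBg F b') (h : Ray F b b') :
    fr b / DN.fr b = fr b' / DN.fr b' := by
  have hF30 := (DS.C.aCnd n t F m b hm hb).1
  obtain ⟨α, α', h0, h0', c1, -, hd, he⟩ := h
  obtain ⟨β, c2, hβ⟩ := cop_inv c1
  have hβ0 : β ≠ 0 := by
    rintro rfl
    rw [mul_zero, zero_sub, dvd_neg, nat_dvd_iff, re_one] at hβ
    have h1 := Int.le_of_dvd one_pos hβ.1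
    omega
  have hβ' : ((F : ℕ) : OO n t) ∣ α' * β - 1 := by
    have e : α' * β - 1 = (α * β - 1) - (α - α') * β := by ring
    rw [e]
    exact dvd_sub hβ (Dvd.dvd.mul_right hd β)
  have e1 : sp (α * β) * b = sp (α' * β) * b' := by
    have h1 : sp (α * β) = sp β * sp α := by
      rw [Ideal.span_singleton_mul_span_singleton, mul_comm β α]
    have h2 : sp (α' * β) = sp β * sp α' := by
      rw [Ideal.span_singleton_mul_span_singleton, mul_comm β α']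
    rw [h1, h2, mul_assoc, mul_assoc]
    exact congrArg (fun t₁ => sp β * t₁) he
  have key : ∀ (c : Ideal (OO n t)) (γ : OO n t), DS.FBg F c → γ ≠ 0 → ((F : ℕ) : OO n t) ∣ γ - 1 →
      fr (sp γ * c) / DN.fr (sp γ * c) = fr c / DN.fr c := by
    intro c γ hc hγ hγ1
    have hc30 := g30 hm hc
    have d4 : (4 : OO n t) ∣ γ - 1 := by
      refine dvd_trans ?_ hγ1
      obtain ⟨u, hu⟩ := h4
      exact ⟨(u : OO n t), by rw [hu]; push_cast; ring⟩
    have d15 : ∀ j : ℕ, j ∣ 15 → ((j : ℕ) : OO n t) ∣ γ - 1 := by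
      intro j hj
      refine dvd_trans ?_ hγ1
      obtain ⟨u, hu⟩ := dvd_trans hj hm.dvd
      exact ⟨(u : OO n t), by rw [hu]; push_cast; ring⟩
    have f1 := (hom1 hc.ne hc30.p2 hγ d4).1
    have f2 := (((aB7 n t c hc.ne).2.2 hc30.g15.cop).1 γ hγ
      (by have := d15 3 (by norm_num); rwa [Nat.cast_ofNat] at this)
      (Or.inl (by have := d15 5 (by norm_num); rwa [Nat.cast_ofNat] at this))).1
    have hA : toC γ ≠ 0 := toC_ne hγ
    rw [f1, f2, mul_div_mul_left _ _ hA]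
  have k1 := key b (α * β) hb (mul_ne_zero h0 hβ0) hβ
  have k2 := key b' (α' * β) hb' (mul_ne_zero h0' hβ0) hβ'
  rw [← k1, ← k2, e1]

/-- `fr/DN.fr` and complex conjugation. -/
theorem sO_cj [SqN n t] {b : Ideal (OO n t)} (hb : G30 b) :
    (starRingEnd ℂ) (fr b) = fr (cjI b) ∧ (starRingEnd ℂ) (DN.fr b) = DN.fr (cjI b) :=
  ⟨(aBC n t b hb.ne hb.p2).2.2.2.2.1.1, ((aB7 n t b hb.ne).2.2 hb.g15.cop).2.1⟩

theorem cj_fb [SqN n t] {F : ℕ} {b : Ideal (OO n t)} (hb : DS.FBg F b) : DS.FBg F (cjI b) := by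
  refine ⟨?_, ((aO3 n t).2.2.2.2.1 b F).2 hb.cop⟩
  intro h
  have h1 := ((aO2 n t).2.2.2.2.2.1 (cjI b)).2 h
  rw [((aO3 n t).2.2.1 b).2.1] at h1
  exact hb.ne (((aO2 n t).2.2.2.2.2.1 b).1 h1)

theorem cj_fm [SqN n t] {F : ℕ} {m : Ideal (OO n t)} (hm : DS.FMg F m) : DS.FMg F (cjI m) := by
  have h := cj_fb (F := F) (b := m) ⟨hm.ne, hm.cop⟩
  exact ⟨hm.pos, hm.two, hm.dvd, h.ne, h.cop⟩

/-! ## The statements of `DS/IfaceC.lean` -/

/-- **C1.** -/
theorem gC1 (hR : DS.S_R1) (n t : ℕ) [SqN n t] (F N : ℕ) (m b : Ideal (OO n t)) (hm : DS.FMg F m)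
    (hb : DS.FBg F b) (hN : DS.IsLg F m {b} N) (a b' c d : ℤ) (hG : G0 N a b' c d) :
    a ≠ 0 ∧ d ≠ 0 ∧ IsCoprime a (N : ℤ) ∧ IsCoprime d (N : ℤ) ∧
      DS.FBg F (sp (a : OO n t) * b) ∧
      ∀ r : ℚ, r.den.Coprime (NI m) → (c : ℚ) * r + d ≠ 0 →
      ((a * r + b') / (c * r + d) : ℚ).den.Coprime (NI m) ∧
      etaM F m b ((a * r + b') / (c * r + d)) =
        (eps n t d : Om) * (rO b (sp (a : OO n t) * b) / a) *
          (etaM F m (sp (a : OO n t) * b) r - etaM F m (sp (a : OO n t) * b) 0) +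
        etaM F m b (b' / d) := by
  obtain ⟨h1, h2, h3, h4, h5, h6⟩ := DS.aC1 hR n t F N m b hm hb hN a b' c d hG
  refine ⟨h1, h2, h3, h4, h5, fun r hr hr0 => ?_⟩
  obtain ⟨h8, h9⟩ := h6 r hr hr0
  refine ⟨h8, ?_⟩
  obtain ⟨-, -, s0, -, -, -, e1, -⟩ := fra hR hm hb
  obtain ⟨-, -, s0', -, -, -, e1', -⟩ := fra hR hm h5
  rw [e1, e1, e1', e1', h9, rO_fra hR hm hb h5]
  field_simp

/-- **C2.** -/
theorem gC2 (hR : DS.S_R1) (n t : ℕ) [SqN n t] (F N : ℕ) (m b : Ideal (OO n t)) (hm : DS.FMg F m)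
    (hb : DS.FBg F b) (hN : DS.IsLg F m {b} N) (a b' c d : ℤ) (hG : G0 N a b' c d)
    (hd : (N : ℤ) ∣ d - 1) (z : ℂ) (hz : 0 < z.im) :
    ThM F m b ((a * z + b') / (c * z + d)) =
      ThM F m b z + io (etaM F m b (b' / d) - etaM F m b 0) := by
  obtain ⟨f0, g0, s0, s1, t1, -, e1, -⟩ := fra hR hm hb
  have h := DS.aC2 hR n t F N m b hm hb hN a b' c d hG hd z hz
  rw [t1, t1, h, e1, e1, ← sub_div, map_div₀, s1]
  field_simp

/-- **C3.** -/
theorem gC3 (hR : DS.S_R1) (n t : ℕ) [SqN n t] (F N : ℕ) (m b : Ideal (OO n t)) (hm : DS.FMg F m)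
    (hb : DS.FBg F b) (hN : DS.IsLg F m {b} N) (a b' c d : ℤ) (hG : a * d - b' * c = 1) :
    ∃ (c0 : ℂ) (cf : ℕ → ℂ) (C : ℝ), (∀ j, ‖cf j‖ ≤ C * (j + 1) ^ 3) ∧ ∀ z : ℂ, 0 < z.im →
      HasSum (fun j : ℕ => cf j * ex ((j + 1) * z / (N : ℕ)))
        (ThM F m b ((a * z + b') / (c * z + d)) - c0) := by
  obtain ⟨f0, g0, s0, s1, t1, -⟩ := fra hR hm hb
  obtain ⟨c0, cf, C, h1, h2⟩ := DS.aC3 n t F N m b hm hb hN a b' c d hG
  refine ⟨c0 * (DN.fr b / fr b), fun j => cf j * (DN.fr b / fr b), C * ‖DN.fr b / fr b‖, fun j => ?_,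
    fun z hz => ?_⟩
  · rw [norm_mul]
    calc ‖cf j‖ * ‖DN.fr b / fr b‖ ≤ (C * (j + 1) ^ 3) * ‖DN.fr b / fr b‖ :=
          mul_le_mul_of_nonneg_right (h1 j) (norm_nonneg _)
      _ = C * ‖DN.fr b / fr b‖ * (j + 1) ^ 3 := by ring
  · rw [t1, ← sub_mul]
    have h3 := (h2 z hz).mul_right (DN.fr b / fr b)
    refine h3.congr_fun ?_ |> fun h => h
    intro j
    ring

/-- **C3v.** -/
theorem gC3v (hR : DS.S_R1) (n t : ℕ) [SqN n t] (F : ℕ) (m b : Ideal (OO n t)) (hm : DS.FMg F m)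
    (hb : DS.FBg F b) :
    (∀ r : ℚ, Tendsto (fun y : ℝ => ThM F m b (r + y * Complex.I)) (𝓝[>] 0) (𝓝 (hM F m b r))) ∧
    ∀ a b' c d : ℤ, a * d - b' * c = 1 → ∀ r : ℚ, (c : ℚ) * r + d ≠ 0 →
      Tendsto (fun y : ℝ => ThM F m b ((a * (r + y * Complex.I) + b') /
        (c * (r + y * Complex.I) + d))) (𝓝[>] 0) (𝓝 (hM F m b ((a * r + b') / (c * r + d)))) := by
  obtain ⟨f0, g0, s0, s1, t1, l1, -⟩ := fra hR hm hb
  obtain ⟨h1, h2⟩ := DS.aC3v n t F m b hm hb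
  constructor
  · intro r
    rw [l1]
    refine ((h1 r).mul_const (DN.fr b / fr b)).congr fun y => ?_
    rw [t1]
  · intro a b' c d hG r hr
    rw [l1]
    refine ((h2 a b' c d hG r hr).mul_const (DN.fr b / fr b)).congr fun y => ?_
    rw [t1]

/-- **C4.** -/
theorem gC4 (hR : DS.S_R1) (n t : ℕ) [SqN n t] (F : ℕ) (m b : Ideal (OO n t)) (hm : DS.FMg F m)
    (hb : DS.FBg F b) (c : ℤ) (q : ℕ) (hq : 0 < q) (hqm : q.Coprime (NI m)) :
    Tendsto (fun y : ℝ => ThM F m b (((c / q : ℚ) : ℂ) + y * Complex.I)) (𝓝[>] 0)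
      (𝓝 (hM F m b (c / q))) ∧
    io (etaM F m b (c / q)) = hM F m b (c / q) ∧
    (PrI b q → etaM F m b (c / q) = (1 / q : Om) *
      ∑ x ∈ Finset.range q, ∑ y ∈ Finset.range q,
        zet q ^ (c * (NI m * NI b * Nm (⟨1 + F * x, F * y⟩ : OO n t))) *
          gO m b (toC (⟨1 + F * x, F * y⟩ : OO n t) / (F * q : ℕ))) := by
  obtain ⟨f0, g0, s0, s1, t1, l1, e1, k1⟩ := fra hR hm hb
  obtain ⟨h1, h2, h3⟩ := DS.aC4 hR n t F m b hm hb c q hq hqm
  refine ⟨(gC3v hR n t F m b hm hb).1 (c / q), ?_, fun hbq => ?_⟩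
  · rw [e1, l1, map_div₀, h2, s1]
    field_simp
  · rw [e1, h3 hbq, mul_div_assoc, Finset.sum_div]
    congr 1
    refine Finset.sum_congr rfl fun x _ => ?_
    rw [Finset.sum_div]
    refine Finset.sum_congr rfl fun y _ => ?_
    rw [k1, mul_div_assoc]

/-- **C7.** -/
theorem gC7 (hR : DS.S_R1) (n t : ℕ) [SqN n t] (F : ℕ) (m b : Ideal (OO n t)) (hm : DS.FMg F m)
    (hb : DS.FBg F b) :
    DifferentiableOn ℂ (ThM F m b) {z | 0 < z.im} ∧
    ∀ z : ℂ, 0 < z.im → HasSum (fun j : ℕ => cM F m b j / fr b * ex (j * z)) (ThM F m b z) := by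
  obtain ⟨f0, g0, s0, s1, t1, l1, e1, k1⟩ := fra hR hm hb
  obtain ⟨h1, -, -, -, -, h6⟩ := DS.aC7 n t F m b hm hb
  constructor
  · have e : ThM F m b = fun z => DN.ThM F m b z * (DN.fr b / fr b) := funext t1
    rw [e]
    exact h1.mul_const _
  · intro z hz
    rw [t1]
    have h3 := (h6 z hz).mul_right (DN.fr b / fr b)
    refine h3.congr_fun ?_ |> fun h => h
    intro j
    field_simp

end Pool.Agent.DM
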