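import Pool.Agent.Lib.DM.C.C17
import Pool.Agent.Lib.DS.C.Spec9

/-!
# Part C for DM (inert case): statements for `S_C9`, `S_kH`, `S_Tm` (author helper33)

`X = io ∘ zt P`, a character of `O/3` (zero outside of the units). The general machine for the hidden symmetries is `DS/C/Spec9.lean` (`p = q = l = k = l' = 3`,
`D1 = D`, `s = s' = 1`). The local identities are identities between Fourier transforms on `O/3`.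
-/

set_option autoImplicit false

open scoped Pointwise Topology nonZeroDivisors
open Filter

noncomputable section

namespace Pool.Agent.DM.C

open Pool.Agent.MuZ Pool.Agent.FW NumberField IsDedekindDomain Pool.Agent.DM
open Pool.Agent.DI (io ofC io_inj exists_io io_ofC ofC_io VP MP UP TP ex)
open Pool.Agent.DN
open Pool.Agent.DN.C (rsum PerO)
open Pool.Agent.DS.C (ftp Ts Hs Pf h0 T0)

/-- The properties of `X = io ∘ zt P`. -/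
structure IsX {n t : ℕ} (X : OO n t → ℂ) : Prop where
  zero : ∀ v : OO n t, ¬ Cop v 3 → X v = 0
  mul : ∀ v u : OO n t, X (v * u) = X v * X u
  one : X 1 = 1
  neg : X (-1) = -1
  per : PerO 3 X
  pos4 : ∀ v : OO n t, (3 : ℤ) ∣ Nm v - 1 → X v ^ 4 = 1
  neg4 : ∀ v : OO n t, (3 : ℤ) ∣ Nm v + 1 → X v ^ 4 = -1

/-- `S_k = X(w)^k + X(1 + w)^k + X(2 + w)^k`. -/
def SX {n t : ℕ} (X : OO n t → ℂ) (k : ℕ) : ℂ := ∑ j ∈ Finset.range 3, X (⟨j, 1⟩ : OO n t) ^ k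

/-- `e(e N v/3)`. -/
def QX {n t : ℕ} (e : ℤ) (v : OO n t) : ℂ := ex (e * Nm v / 3)

/-- `∑ g(α) α⁻¹ h0_(α b)(x)` over `α ∈ tm`. -/
def VX {n t : ℕ} (f : ℕ) (m b : Ideal (OO n t)) (g : OO n t → ℂ) (x : ℚ) : ℂ :=
  ∑ α ∈ tm n t f, g α * ((toC α)⁻¹ * h0 (3 * f) m (sp α * b) x)

/-- (module DM/C/Frb; no dependence) **Frobenius and the norms, `3` inert.** `t = 0`: `n ≡ 1`; `t = 1`: `n ≡ 2` modulo `3` (`Dk % 3 = 1`, `SqN.out`). `w³ ≡ t - w`: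
`v³ ≡ cjO v` modulo `3`. `N(x + y w) = x² + t x y + n y² ≡ 0` modulo `3` iff `3 ∣ x, y`. The cube roots: (4) for `t = 0`: `a = w`, `b = 1 + w`, `c = 2 + w`, `b² ≡ -a`,
`c² ≡ a`; for `t = 1`: `a = 1 + w`, `b = w`, `c = 2 + w`, `b² ≡ a`, `c² ≡ -a`. (5) multiplication by a unit permutes the residues. -/
def S_Frb : Prop := ∀ (n t : ℕ) [Ine3 n t],
  (∀ v : OO n t, (3 : OO n t) ∣ v ^ 3 - cjO v) ∧
  (∀ v : OO n t, Cop v 3 ↔ ¬ (3 : OO n t) ∣ v) ∧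
  (∀ v : OO n t, Cop v 3 → (3 : OO n t) ∣ v ^ 8 - 1 ∧ ((3 : ℤ) ∣ Nm v - 1 ∨ (3 : ℤ) ∣ Nm v + 1)) ∧
  (∃ a b c : OO n t, (∀ G : OO n t → ℂ, ∑ j ∈ Finset.range 3, G (⟨j, 1⟩ : OO n t) = G a + G b + G c) ∧
    (∀ G : OO n t → Om, ∑ j ∈ Finset.range 3, G (⟨j, 1⟩ : OO n t) = G a + G b + G c) ∧
    (3 : OO n t) ∣ a ^ 2 + 1 ∧ (3 : OO n t) ∣ b * c - 1 ∧
    ((3 : OO n t) ∣ b ^ 2 + a ∧ (3 : OO n t) ∣ c ^ 2 - a ∨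
      (3 : OO n t) ∣ b ^ 2 - a ∧ (3 : OO n t) ∣ c ^ 2 + a)) ∧
  ∀ (G : OO n t → ℂ) (a : OO n t), PerO 3 G → Cop a 3 → rsum 3 (fun v => G (a * v)) = rsum 3 G

/-- (module DM/C/Ztx; uses S_T0, S_Frb) **`X = io ∘ zt P`.** `zt(1)² = zt(1)`, `zt(1)⁸ = 1`: `zt(1) = 1`; `zt(-1)² = 1`, `zt(-1) ≠ zt(1)` (`3 ∤ 2`). `mul`: if `v` or `u` is not prime
to `3` then `v u` is not (`Nm (v u) = Nm v Nm u`). -/
def S_Ztx : Prop := ∀ (n t : ℕ) [Ine3 n t] (P : Ideal ZZ), Ab3 P →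
  IsX (fun v : OO n t => io (zt P v))

/-- (module DM/C/Chx; uses S_Frb) **The sums `S_k`.** Let `A = X a`, `B = X b`, `C = X c` (`S_Frb` (4)): `A² = X(a²) = X(-1) = -1`, `B C = 1`, `B² = ∓ A`, `C² = ± A` (so `B² + C² = 0`, `B⁴ = C⁴ = -1`).
`k` odd: `S_k S_(k+4) = A^(2k) - (B^k + C^k)² = -1 - (0 + 2) = -3` (`A⁴ = 1`). `S_2 = -1 + 0`, `S_6 = A⁶ + B⁶ + C⁶ = -1 + 0`. `S_k² = 1 + 2 A^k (B^k + C^k)` for `k = 1, 3`: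
`(S_k² - 1)² = 4 A^(2k) (B^k + C^k)² = -8`. `X(cjO v) = X(v³)` (period, `S_Frb` (1)). -/
def S_Chx : Prop := ∀ (n t : ℕ) [Ine3 n t] (X : OO n t → ℂ), IsX X →
  SX X 1 * SX X 5 = -3 ∧ SX X 3 * SX X 7 = -3 ∧ SX X 2 = -1 ∧ SX X 6 = -1 ∧
  (∀ k : ℕ, (k = 1 ∨ k = 3) → (SX X k ^ 2 - 1) ^ 2 = -8 ∧ SX X k ≠ 0) ∧
  (∀ v : OO n t, X (cjO v) = X v ^ 3) ∧ ∀ v : OO n t, Cop v 3 → X v ^ 8 = 1

/-- (module DM/C/Kh; uses S_T0, S_Ztx, S_Chx, S_Frb) **The constant `kH`.** Let `s = ∑ zt(⟨j, 1⟩)^k`, `kH = s²/9`; `io s = SX X k`: `(s² - 1)² = -8` (`io` is injective), so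
`9 kH² - 2 kH + 1 = 0`: `kH ≠ 0`. Integrality: `s ∈ 3 V_P`: `k = 1`: `∑ (zt v - toO v) ∈ 3 V_P` (`S_T0`), `∑ toO(⟨j, 1⟩) = 3 + 3 w`; `k = 3`: `zt(v)³ = zt(v³)` and `∑ ⟨j, 1⟩³ ∈ 3 O`
(`⟨j, 1⟩³ = j³ + w³` modulo `3`). `kH + 1 = 3 kH - 9 kH² ∈ M_P`. The inertia group fixes the `zt P v`. -/
abbrev M_kH : Prop := S_kH

/-- (module DM/C/Tm; uses S_T0) **The system `tm`.** `f² ≡ 1` modulo `3`: `tmv n t f i j ≡ ⟨i, j⟩` modulo `3`, `≡ 1` modulo `f`. `IsG f 1`: for `v ≡ 1` modulo `f` take `i, j < 3` with `v ≡ ⟨i, j⟩` modulo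
`3`; `f` and `3` are coprime. (2) `Nm ≡ Nm ⟨i, j⟩` modulo `3` (`3` inert). (3) The map `(i, j) ↦ tmv` is injective on `range 3 × range 3` (modulo `3`), `zt P (tmv i j) = zt P ⟨i, j⟩`, and
`zt P ⟨0, 0⟩ = 0`, `1 ≤ k`. -/
abbrev M_Tm : Prop := S_Tm

/-- (module DM/C/Tss; no dependence) **`tm` and the structure `Ts`.** For `v` prime to `3` there is `v' ≡ 1` modulo `f`, `v' ≡ v` modulo `3`, and so exactly one `α ∈ A` with `3 ∣ v - α`; `g(α) = g(v)`. For `v` not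
prime to `3` no `α ∈ A` (`α` is prime to `3`), `g(v) = 0`. -/
def S_Tss : Prop := ∀ (n t : ℕ) [SqN n t] (f : ℕ) (A : Finset (OO n t)) (g : OO n t → ℂ),
  0 < f → Nat.Coprime f 3 → IsG f 1 A → PerO 3 g → (∀ v : OO n t, ¬ Cop v 3 → g v = 0) →
    Ts 3 f A g

/-- (module DM/C/Gss; uses S_Frb, S_Chx) **The Fourier transforms of the powers of `X`.** (1) Gauss sum: `∑ X(γ)^k e(-γ.im/3)`: `γ = i + j w`: `j = 0`: `1 + (-1)^k`; `j = 1`: `S_k e(-1/3)`; `j = 2`: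
`⟨i, 2⟩ ≡ -⟨-i, 1⟩`: `(-1)^k S_k e(1/3)`. (2) for `3 ∣ u` (then `X u = 0`): `e(..) = 1`, `∑ X^k = 1 + (-1)^k + S_k (1 + (-1)^k) = 0`. For `u` prime to `3`: substitution `β = (cjO u)^7 γ` (`S_Frb` (5)):
`β cjO u ≡ γ` modulo `3`, `X(β)^k = X(u)^(21 k) X(γ)^k = X(u)^(5 k) X(γ)^k`. `X(F0 β) = X(F0) X(β)`. (3) `F0² ≡ 1` modulo `3`. -/
def S_Gss : Prop := ∀ (n t : ℕ) [Ine3 n t] (X : OO n t → ℂ), IsX X → ∀ F0 : ℕ, Nat.Coprime F0 3 →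
  X (F0 : OO n t) ^ 4 = 1 ∧
  (∀ k : ℕ, (k = 1 ∨ k = 3 ∨ k = 5 ∨ k = 7) → ∀ u : OO n t,
    ftp 3 F0 (fun v => X v ^ k) u =
      X (F0 : OO n t) ^ k * ((ex (-1 / 3) - ex (1 / 3)) * SX X k) * X u ^ (5 * k)) ∧
  ∀ k : ℕ, (k = 2 ∨ k = 6) → ∀ u : OO n t,
    ftp 3 F0 (fun v => X v ^ k) u = X (F0 : OO n t) ^ k * 3 * X u ^ (5 * k)

/-- (module DM/C/Lcx; uses S_Gss, S_Chx, S_Frb) **The local identities.** Let `r = e(1/3) - e(-1/3)`, `r² = -3`, `ρ = ± r/2` (`+` iff `n1 ≡ 1` modulo `3`), `ρ² = -3/4`: for `v` prime to `3`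
`QX n1 v = -1/2 + ρ X(v)⁴`, `ex(-(c Nm v)/3) = QX (-n1) v = -1/2 - ρ X(v)⁴` (`c ≡ n1`). With `Φ_k = ftp 3 F0 (X^k)` (`ftp` is linear in the function, `Φ_k(u) = 0` for `u` not prime to `3`) and
`g_k = -r S_k`: `X^k QX n1 = -1/2 X^k + ρ X^(k+4)`; `Φ_(k+4)(u) = X(F0)^k g_(k+4) X(u)^(5 k + 4)` (`X(F0)⁴ = 1`, `X⁸ = 1`), so with `a = S_k²/3 = -S_k/S_(k+4) = -g_k/g_(k+4)`:
`Φ_k ex = -1/2 Φ_k + a ρ Φ_(k+4)`, `Φ_(k+4) ex = -1/2 Φ_(k+4) + (ρ/a) Φ_k`. (1): `a ρ Φ_(k+4) = a (ftp (X^k QX n1) + 1/2 Φ_k)`. (2): `ftp (X^k QX n1) ex = (-1/2 Φ_k + ρ Φ_(k+4)) ex =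
(1/4 - 3/(4 a)) Φ_k - (a + 1)/2 ρ Φ_(k+4)`. (3), (4): `k = 2`: `g_2 = g_6 = 3`, `X^10 = X²`, `X^14 = X^6`: `Φ_2 ex = -1/2 Φ_2 - ρ Φ_6 = ftp (X² QX (-n1))`; `ftp (X² QX n1) ex = (1/4 - ρ²) Φ_2 = Φ_2`. -/
def S_Lcx : Prop := ∀ (n t : ℕ) [Ine3 n t] (X : OO n t → ℂ), IsX X → ∀ (F0 c n1 : ℕ),
  Nat.Coprime F0 3 → c % 3 = n1 % 3 → ¬ 3 ∣ n1 →
  (∀ k : ℕ, (k = 1 ∨ k = 3) → ∀ u : OO n t,
    ftp 3 F0 (fun v => X v ^ k) u * ex (-(c * Nm u) / (3 : ℕ)) =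
      ftp 3 F0 (fun v => (-1 + SX X k ^ 2 / 3) / 2 * X v ^ k +
        SX X k ^ 2 / 3 * (X v ^ k * QX n1 v)) u ∧
    ftp 3 F0 (fun v => X v ^ k * QX n1 v) u * ex (-(c * Nm u) / (3 : ℕ)) =
      ftp 3 F0 (fun v => (-3 / (4 * (SX X k ^ 2 / 3)) - SX X k ^ 2 / 3 / 4) * X v ^ k +
        (-1 / 2 - SX X k ^ 2 / 3 / 2) * (X v ^ k * QX n1 v)) u) ∧
  ∀ u : OO n t,
    ftp 3 F0 (fun v => X v ^ 2) u * ex (-(c * Nm u) / (3 : ℕ)) =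
      ftp 3 F0 (fun v => X v ^ 2 * QX (-(n1 : ℤ)) v) u ∧
    ftp 3 F0 (fun v => X v ^ 2 * QX n1 v) u * ex (-(c * Nm u) / (3 : ℕ)) =
      ftp 3 F0 (fun v => X v ^ 2) u

/-- (module DM/C/Vsy; uses DS.C.S_Uvl, S_Tm, S_Tss, DS.C.S_Lh, S_Frb) **The hidden symmetry of the values.** `DS.C.S_Uvl` with `p = l = l' = 3`, `D1 = Dk n t`, `T = tm n t f` (`S_Tm` (1), `S_Tss`). `Hs`: `Pf 3 f m b`
(`x² ≡ 1` modulo `3`; `PrI m 3` from `PrI m (3 f)`), `Dk 3² = D1 (3 * 3)`, `loc` from `hloc` (factor `3 * 3³` on both sides). `r/(M r + 1)/3`, `r/3`, `0`: `0/3 = 0`. -/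
def S_Vsy : Prop := ∀ (n t : ℕ) [Ine3 n t] (f M c : ℕ) (m b : Ideal (OO n t)) (g g' : OO n t → ℂ),
  FM f m → FB f b → Dk n t * f ^ 2 * NI (m * b) * c = M → PerO 3 g → PerO 3 g' →
  (∀ v : OO n t, ¬ Cop v 3 → g v = 0) → (∀ v : OO n t, ¬ Cop v 3 → g' v = 0) →
  (∀ u : OO n t, ftp 3 f g u * ex (-(c * Nm u) / (3 : ℕ)) = ftp 3 f g' u) →
  ∀ r : ℚ, (M : ℚ) * r + 1 ≠ 0 →
    VX f m b g (r / (M * r + 1) / 3) - VX f m b g 0 = VX f m b g' (r / 3) - VX f m b g' 0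

/-- (module DM/C/Rep; uses DS.S_R1, DS.C.S_Lh, S_Tm) **`E_b` and `VX`.** For `α ∈ tm` (`S_Tm`: `α ≡ 1` modulo `f`, prime to `3`; `4 ∣ f`): `FB f (sp α * b)`, `fr (sp α * b) = toC α * fr b` (`hom1` of DM/E/BC),
`io (etaM (3 f) m (α b) x) = hM .. x = h0 .. x/(toC α fr b)` for `x.den` prime to `N m` (`gC4`, `fra` of DM/C/Fra; `DS.C.S_Lh` (5): `DN.hM = h0/DN.fr`). `x = r/3`: the denominator divides `3 r.den`, prime to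
`N m`. (2), (3): `etaM_per` of DM/C/Fr6 with `l = 3` at `x = r/3` and at `x = (r - 1)/3`: `etaM((r + 1)/3) = zet 3 ^ N(m α b) etaM(r/3)`, `N(m α b) = Nm α N(m b)`, `io (zet 3) = ex (1/3)` (`CV_io_zet`);
`etaM((r - 1)/3)` is algebraic as well. -/
def S_Rep : Prop := ∀ (n t : ℕ) [Ine3 n t] (f M : ℕ) (m b : Ideal (OO n t)), FM f m → FB f b →
  IsLv f m {b} M → ∀ (P : Ideal ZZ) (k : ℕ) (r : ℚ), r.den.Coprime M →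
    io (etE P f k m b r) * fr b = VX f m b (fun v => io (zt P v) ^ k) (r / 3) ∧
    io (etE P f k m b (r + 1)) * fr b =
      VX f m b (fun v => io (zt P v) ^ k * QX (NI (m * b) : ℤ) v) (r / 3) ∧
    io (etE P f k m b (r - 1)) * fr b =
      VX f m b (fun v => io (zt P v) ^ k * QX (-(NI (m * b) : ℤ)) v) (r / 3)

/-- (module DM/C/C9; uses S_Rep, S_Vsy, S_Lcx, S_Ztx, S_Chx, S_Tm, DS.S_R1, S_C6) `S_C9`. (i) `M r + 1 ≠ 0` and the denominator of `r/(M r + 1)` is prime to `M` (`den_ne` of DM/C/C17). (ii) the sum of the three translates: for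
`α ∈ tm`, `x = r/3`: `η(x) + η(x + 1/3) + η(x + 2/3) = (1 + ζ^N + ζ^(2N)) η(x) = 0`, `ζ = zet 3`, `N = N m N(α b)` prime to `3`. (iii) `M = Dk f² N(m b) c` (`IsLv`), `c ≡ N(m b)` modulo `3` (`Dk`, `f²`, `M`,
`N(m b)²` are `1` modulo `3`). `X v = io (zt P v)`; `S_Lcx` with `F0 = f`, `n1 = N(m b)`; `S_Vsy`; `VX` is linear in `g`; `io (3 kH) = SX X k ^ 2/3`. First identity: `g = X^k` at `r` (`S_Rep` (1) at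
`r/(M r + 1)` and at `0`; `g'`: `S_Rep` (1), (2) at `r` and at `0`). Second: `g = X^k QX`. `k = 2`: `g = X²`, `g' = X² QX (-n1)` (`S_Rep` (3)), and `g = X² QX n1`, `g' = X²`. -/
abbrev M_C9 : Prop := S_C9

end Pool.Agent.DM.C
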